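import Mathlib
import Pool.Agent.V7H42.KR.Ring

set_option autoImplicit false

/-! Isolated subgroups, `-1` arbitrary in `H`: the linear order. -/

namespace Pool.Agent.V7H42.K2

open Pool.Agent.Y920.EP
open Pool.Agent.V7H42.KR

section

variable {F : Type} [Field F] {A : Type} [CommGroup A] {φ : Fˣ →* A}

/-- a system of norm groups and an isolated subgroup that contains the class of `-1` -/
structure Ke (φ : Fˣ →* A) (Nn : A → Subgroup A) (H : Subgroup A) : Prop where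
  neg : φ (-1) ∈ H
  symm : ∀ a b : A, b ∈ Nn a → a ∈ Nn b
  sum : ∀ u v : Fˣ, (v : F) = 1 + u → φ v ∈ Nn (φ (-u))
  le : ∀ h ∈ H, h ≠ 1 → Nn h ≤ H

variable {Nn : A → Subgroup A} {H : Subgroup A}

lemma phi_n (x : Fˣ) : φ (-x) = φ (-1) * φ x := by rw [← map_mul, neg_one_mul]

lemma phi_nn : φ (-1) * φ (-1) = 1 := by rw [← map_mul, neg_mul_neg, one_mul, map_one]

/-- `r` and `s` are not in `T` and not in `-T`, and `r + s = 1` -/
structure Gd (φ : Fˣ →* A) (H : Subgroup A) (r s : Fˣ) : Prop where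
  hr : φ r ∈ H
  hs : φ s ∈ H
  hrs : (r : F) + s = 1
  hr1 : φ r ≠ 1
  hs1 : φ s ≠ 1
  hre : φ r ≠ φ (-1)
  hse : φ s ≠ φ (-1)
  hrs' : φ r ≠ φ (-s)

variable (hK : Ke φ Nn H)

include hK

lemma mem_neg {x : Fˣ} (hx : φ x ∈ H) : φ (-x) ∈ H := by
  rw [phi_n]; exact mul_mem hK.neg hx

lemma mem_neg' {x : Fˣ} (hx : φ x ∉ H) : φ (-x) ∉ H := fun h => hx (by
  have := mem_neg hK h
  rwa [neg_neg] at this)

/-- sums of elements of different classes of `H` -/
lemma fa {x y : Fˣ} (hx : φ x ∈ H) (hy : φ y ∈ H) (hxy : φ x ≠ φ (-y)) :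
    ∃ z : Fˣ, (z : F) = x + y ∧ φ z ∈ H := by
  have h0 : (x : F) + y ≠ 0 := by
    intro h
    apply hxy
    have : x = -y := Units.ext (by rw [Units.val_neg]; linear_combination h)
    rw [this]
  refine ⟨Units.mk0 _ h0, rfl, ?_⟩
  have h1 : φ (-(y / x)) ∈ H := mem_neg hK (by rw [map_div]; exact div_mem hy hx)
  have h2 : φ (-(y / x)) ≠ 1 := by
    rw [← neg_div, map_div]
    exact fun h => hxy (div_eq_one.1 h).symm
  have h3 := hK.le _ h1 h2 (hK.sum (y / x) (Units.mk0 _ h0 / x) (by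
    rw [Units.val_div_eq_div_val, Units.val_div_eq_div_val, Units.val_mk0]
    field_simp))
  rw [map_div] at h3
  have h4 := mul_mem h3 hx
  rwa [div_mul_cancel] at h4

/-- an element outside `H` -/
lemma fb {w : Fˣ} (hw : φ w ∉ H) : ∃ v : Fˣ, (v : F) = 1 + w ∧ (φ v = 1 ∨ φ v ∉ H) := by
  have h0 : (1 : F) + w ≠ 0 := by
    intro h
    apply hw
    have : w = -1 := Units.ext (by rw [Units.val_neg, Units.val_one]; linear_combination h)
    rw [this]
    exact hK.neg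
  refine ⟨Units.mk0 _ h0, rfl, ?_⟩
  by_contra hc
  push Not at hc
  exact mem_neg' hK hw (hK.le _ hc.2 hc.1 (hK.symm _ _ (hK.sum w (Units.mk0 _ h0) rfl)))

lemma fc {x y z : Fˣ} (hx : φ x ∈ H) (hy : φ y ∈ H) (hxy : φ x ≠ φ (-y)) (hz : (z : F) = x + y) :
    φ z ∈ H ∧ Li φ H x z ∧ Li φ H y z := by
  have key : ∀ x y : Fˣ, φ x ∈ H → φ y ∈ H → φ x ≠ φ (-y) → (z : F) = x + y →
      φ z ∈ H ∧ Li φ H x z := by
    intro x y hx hy hxy hz
    obtain ⟨z', hz', h1⟩ := fa hK hx hy hxy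
    have hzz : z = z' := Units.ext (hz.trans hz'.symm)
    rw [← hzz] at h1
    refine ⟨h1, ?_⟩
    rintro w hw ⟨x', hx', e⟩
    obtain ⟨v, hv, hv'⟩ := fa hK (x := x') (y := y) (by rw [e]; exact hx) hy (by rw [e]; exact hxy)
    refine ⟨v, by rw [hv, hx', hz]; ring, ?_⟩
    have hwz : φ (w / z) ∉ H := by
      rw [map_div]
      intro h
      apply hw
      have h2 := mul_mem h h1
      rwa [div_mul_cancel] at h2
    obtain ⟨c, hc, h3⟩ := fb hK hwz
    have e1 : c = v / z := by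
      apply Units.ext
      have hz0 : (z : F) ≠ 0 := z.ne_zero
      rw [hc, Units.val_div_eq_div_val, Units.val_div_eq_div_val, hv, hx']
      field_simp
      rw [hz]
      ring
    rw [e1, map_div] at h3
    rcases h3 with h3 | h3
    · exact div_eq_one.1 h3
    · exact absurd (div_mem hv' h1) h3
  refine ⟨(key x y hx hy hxy hz).1, (key x y hx hy hxy hz).2,
    (key y x hy hx (fun h => hxy ?_) (by rw [hz, add_comm])).2⟩
  rw [phi_n] at h ⊢
  rw [h, ← mul_assoc, phi_nn, one_mul]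

/-- nonrigid elements in `H` -/
lemma fd {r s : Fˣ} (hr : φ r ∈ H) (hs : φ s ∈ H) (hrs : (r : F) + s = 1) (hr1 : φ r ≠ 1)
    (hs1 : φ s ≠ 1) (hrs' : φ r ≠ φ (-s)) :
    (Li φ H r 1 ∧ Li φ H 1 r) ∧ (Li φ H s 1 ∧ Li φ H 1 s) ∧ Li φ H (-1) 1 := by
  have h1 : φ 1 ∈ H := by rw [map_one]; exact one_mem H
  obtain ⟨-, h2, h3⟩ := fc hK hr hs hrs' (z := 1) (by rw [hrs, Units.val_one])
  obtain ⟨-, h4, h5⟩ := fc hK (x := 1) (y := -s) (z := r) h1 (mem_neg hK hs) (by
    rw [map_one, neg_neg]; exact Ne.symm hs1) (by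
    rw [Units.val_one, Units.val_neg]; linear_combination hrs)
  obtain ⟨-, h6, h7⟩ := fc hK (x := 1) (y := -r) (z := s) h1 (mem_neg hK hr) (by
    rw [map_one, neg_neg]; exact Ne.symm hr1) (by
    rw [Units.val_one, Units.val_neg]; linear_combination hrs)
  refine ⟨⟨h2, h4⟩, ⟨h3, h6⟩, ?_⟩
  -- `-s ≤ 1`, so `s ≤ -1`, so `1 ≤ -1`
  have h8 := li_mul (c := -1) hK.neg (li_trans h5 h2)
  rw [neg_mul_neg, one_mul, mul_one] at h8
  have h9 := li_mul (c := -1) hK.neg (li_trans h6 h8)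
  rwa [neg_mul_neg, one_mul, mul_one] at h9

variable {r s : Fˣ} (hG : Gd φ H r s)

include hG

lemma fd' : (Li φ H r 1 ∧ Li φ H 1 r) ∧ (Li φ H s 1 ∧ Li φ H 1 s) ∧ Li φ H (-1) 1 :=
  fd hK hG.hr hG.hs hG.hrs hG.hr1 hG.hs1 hG.hrs'

lemma li_neg1 : Li φ H (-1) 1 ∧ Li φ H 1 (-1) := by
  have h := (fd' hK hG).2.2
  refine ⟨h, ?_⟩
  have := li_mul hK.neg h
  rwa [neg_mul_neg, one_mul, mul_one] at this

/-- linear order -/
lemma li_tot {h : Fˣ} (hh : φ h ∈ H) : Li φ H h 1 ∨ Li φ H 1 h := by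
  obtain ⟨⟨a1, a2⟩, ⟨a3, a4⟩, -⟩ := fd' hK hG
  have h1 : φ 1 ∈ H := by rw [map_one]; exact one_mem H
  have key : ∀ h : Fˣ, φ h ∈ H → φ h ≠ 1 → φ h ≠ φ (-1) → Li φ H h 1 ∨ Li φ H 1 h := by
    intro h hh hh1 hhe
    have hne : φ 1 ≠ φ (-h) := by
      intro e
      apply hhe
      rw [phi_n, map_one] at e
      have := congrArg (fun c => φ (-1) * c) e
      simp only [mul_one, ← mul_assoc, phi_nn, one_mul] at this
      exact this.symm
    obtain ⟨z, hz, hzH⟩ := fa hK h1 hh hne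
    obtain ⟨-, b1, b2⟩ := fc hK h1 hh hne hz
    rw [Units.val_one] at hz
    by_cases hz1 : φ z = 1
    · left
      obtain ⟨-, b3, -⟩ := fc hK (x := z) (y := -h) (z := 1) hzH (mem_neg hK hh) (by
        rw [hz1, neg_neg]; exact Ne.symm hh1) (by
        rw [Units.val_neg, hz, Units.val_one]; ring)
      exact li_trans b2 b3
    · right
      obtain ⟨-, b3, -⟩ := fc hK (x := z) (y := -1) (z := h) hzH hK.neg (by
        rw [neg_neg, map_one]; exact hz1) (by
        rw [Units.val_neg, hz, Units.val_one]; ring)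
      exact li_trans b1 b3
  by_cases hh1 : φ h = 1 ∨ φ h = φ (-1)
  · have c1 := li_mul hh a1
    have c2 := li_mul hh a2
    rw [mul_one] at c1 c2
    have hhr : φ (h * r) ∈ H := by rw [map_mul]; exact mul_mem hh hG.hr
    have e1 : φ (h * r) ≠ 1 := by
      rw [map_mul]
      rcases hh1 with e | e
      · rw [e, one_mul]; exact hG.hr1
      · rw [e]
        intro h2
        apply hG.hre
        have := congrArg (fun c => φ (-1) * c) h2
        simp only [mul_one, ← mul_assoc, phi_nn, one_mul] at this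
        exact this
    have e2 : φ (h * r) ≠ φ (-1) := by
      rw [map_mul]
      rcases hh1 with e | e
      · rw [e, one_mul]; exact hG.hre
      · rw [e]
        intro h2
        exact hG.hr1 (mul_eq_left.1 h2)
    rcases key (h * r) hhr e1 e2 with h2 | h2
    · exact Or.inl (li_trans c2 h2)
    · exact Or.inr (li_trans h2 c1)
  · push Not at hh1
    exact key h hh hh1.1 hh1.2

lemma ff1 {h : Fˣ} (hh : Sh φ H h) (hh1 : φ h ≠ 1) (hhe : φ h ≠ φ (-1)) :
    ∃ z : Fˣ, (z : F) = 1 + h ∧ φ z = 1 ∧ Li φ H z 1 ∧ Li φ H 1 z := by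
  have h1 : φ 1 ∈ H := by rw [map_one]; exact one_mem H
  have hne : φ 1 ≠ φ (-h) := by
    intro e
    apply hhe
    rw [phi_n, map_one] at e
    have := congrArg (fun c => φ (-1) * c) e
    simp only [mul_one, ← mul_assoc, phi_nn, one_mul] at this
    exact this.symm
  obtain ⟨z, hz, hzH⟩ := fa hK h1 hh.1 hne
  obtain ⟨-, b1, b2⟩ := fc hK h1 hh.1 hne hz
  rw [Units.val_one] at hz
  by_cases hz1 : φ z = 1
  · obtain ⟨-, b3, -⟩ := fc hK (x := z) (y := -h) (z := 1) hzH (mem_neg hK hh.1) (by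
      rw [hz1, neg_neg]; exact Ne.symm hh1) (by
      rw [Units.val_neg, hz, Units.val_one]; ring)
    exact ⟨z, hz, hz1, b3, b1⟩
  · exfalso
    obtain ⟨-, b3, -⟩ := fc hK (x := z) (y := -1) (z := h) hzH hK.neg (by
      rw [neg_neg, map_one]; exact hz1) (by
      rw [Units.val_neg, hz, Units.val_one]; ring)
    exact hh.2 (li_trans b1 b3)

/-- one-units -/
lemma ff {h : Fˣ} (hh : Sh φ H h) :
    ∃ z : Fˣ, (z : F) = 1 + h ∧ φ z = 1 ∧ Li φ H z 1 ∧ Li φ H 1 z := by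
  by_cases hh1 : φ h = 1 ∨ φ h = φ (-1)
  · obtain ⟨⟨a1, a2⟩, ⟨a3, a4⟩, -⟩ := fd' hK hG
    -- classes of `q h`
    have hq : ∀ q : Fˣ, φ q ≠ 1 → φ q ≠ φ (-1) → φ (q * h) ≠ 1 ∧ φ (q * h) ≠ φ (-1) := by
      intro q h2 h3
      rw [map_mul]
      rcases hh1 with e | e
      · rw [e, mul_one]; exact ⟨h2, h3⟩
      · rw [e]
        refine ⟨fun h4 => h3 ?_, fun h4 => h2 (mul_eq_right.1 h4)⟩
        have := congrArg (fun c => c * φ (-1)) h4
        simp only [one_mul, mul_assoc, phi_nn, mul_one] at this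
        exact this
    have hrh : Sh φ H (r * h) := sh_mul hG.hr a1 hh
    obtain ⟨t1, ht1, e1, c1, c2⟩ := ff1 hK hG hrh (hq r hG.hr1 hG.hre).1 (hq r hG.hr1 hG.hre).2
    have ht1H : φ t1⁻¹ ∈ H := by rw [map_inv, e1, inv_one]; exact one_mem H
    have hst : φ (t1⁻¹ * s) ∈ H := by rw [map_mul]; exact mul_mem ht1H hG.hs
    have hst1 : Li φ H (t1⁻¹ * s) 1 := by
      have h2 := li_mul ht1H c2
      rw [inv_mul_cancel, mul_one] at h2
      have h3 := li_mul ht1H a3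
      rw [mul_one] at h3
      exact li_trans h3 h2
    have hsh : Sh φ H (t1⁻¹ * s * h) := sh_mul hst hst1 hh
    have es : φ (t1⁻¹ * s) = φ s := by rw [map_mul, map_inv, e1, inv_one, one_mul]
    obtain ⟨t2, ht2, e2, c3, c4⟩ := ff1 hK hG hsh
      (hq (t1⁻¹ * s) (by rw [es]; exact hG.hs1) (by rw [es]; exact hG.hse)).1
      (hq (t1⁻¹ * s) (by rw [es]; exact hG.hs1) (by rw [es]; exact hG.hse)).2
    refine ⟨t1 * t2, ?_, by rw [map_mul, e1, e2, one_mul], ?_, ?_⟩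
    · have h0 : (t1 : F) ≠ 0 := t1.ne_zero
      rw [Units.val_mul, ht2, Units.val_mul, Units.val_mul, Units.val_inv_eq_inv_val, mul_add,
        mul_one, mul_assoc, mul_inv_cancel_left₀ h0, ht1, Units.val_mul]
      linear_combination (h : F) * hG.hrs
    · have h2 := li_mul (c := t1) (by rw [e1]; exact one_mem H) c3
      rw [mul_one] at h2
      exact li_trans h2 c1
    · have h2 := li_mul (c := t1) (by rw [e1]; exact one_mem H) c4
      rw [mul_one] at h2
      exact li_trans c2 h2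
  · push Not at hh1
    exact ff1 hK hG hh hh1.1 hh1.2

end

end Pool.Agent.V7H42.K2
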