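import Mathlib
import Pool.Agent.V7H42.K2.Ord

set_option autoImplicit false

/-! Isolated subgroups, `-1` arbitrary in `H`: the valuation ring. -/

namespace Pool.Agent.V7H42.K2

open Pool.Agent.Y920.EP
open Pool.Agent.V7H42.KR (Li li_refl li_trans li_mul li_mul' Sh sh_mul JJ mem_jj RR mem_rr int_inv)

section

variable {F : Type} [Field F] {A : Type} [CommGroup A] {φ : Fˣ →* A} {Nn : A → Subgroup A}
  {H : Subgroup A} {r s : Fˣ} (hK : Ke φ Nn H) (hG : Gd φ H r s)

include hK hG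

/-- `y + J` for units `y` -/
lemma jj_add' {j : F} (hj : j ∈ JJ φ H) : ∀ y : Fˣ, (φ y = 1 ∨ φ y = φ (-1)) → Li φ H y 1 →
    Li φ H 1 y → ∃ z : Fˣ, (z : F) = y + j ∧ φ z = φ y ∧ Li φ H z 1 ∧ Li φ H 1 z := by
  obtain ⟨n1, n2⟩ := li_neg1 hK hG
  have hmem : ∀ y : Fˣ, (φ y = 1 ∨ φ y = φ (-1)) → φ y ∈ H := by
    rintro y (h | h)
    · rw [h]; exact one_mem H
    · rw [h]; exact hK.neg
  induction hj using AddSubgroup.closure_induction with
  | mem x hx =>
    obtain ⟨h, rfl, hh⟩ := hx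
    intro y hy h1 h2
    have hyH : φ y⁻¹ ∈ H := by rw [map_inv]; exact inv_mem (hmem y hy)
    have h3 : Li φ H y⁻¹ 1 := by
      have := li_mul hyH h2
      rwa [inv_mul_cancel, mul_one] at this
    obtain ⟨z, hz, e, h4, h5⟩ := ff hK hG (sh_mul hyH h3 hh)
    refine ⟨y * z, ?_, by rw [map_mul, e, mul_one], ?_, ?_⟩
    · have h0 : (y : F) ≠ 0 := y.ne_zero
      rw [Units.val_mul, hz, Units.val_mul, Units.val_inv_eq_inv_val]
      field_simp
    · have := li_mul (hmem y hy) h4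
      rw [mul_one] at this
      exact li_trans this h1
    · have := li_mul (hmem y hy) h5
      rw [mul_one] at this
      exact li_trans h2 this
  | zero =>
    intro y hy h1 h2
    exact ⟨y, by rw [add_zero], rfl, h1, h2⟩
  | add x x' _ _ hx hx' =>
    intro y hy h1 h2
    obtain ⟨z, hz, e, h3, h4⟩ := hx y hy h1 h2
    obtain ⟨z', hz', e', h5, h6⟩ := hx' z (by rw [e]; exact hy) h3 h4
    exact ⟨z', by rw [hz', hz, add_assoc], e'.trans e, h5, h6⟩
  | neg x _ hx =>
    intro y hy h1 h2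
    have m1 := li_mul hK.neg h1
    have m2 := li_mul hK.neg h2
    simp only [neg_one_mul, mul_one] at m1 m2
    have hny : φ (-y) = 1 ∨ φ (-y) = φ (-1) := by
      rw [phi_n]
      rcases hy with h | h
      · right; rw [h, mul_one]
      · left; rw [h, phi_nn]
    obtain ⟨z, hz, e, h3, h4⟩ := hx (-y) hny (li_trans m1 n1) (li_trans n2 m2)
    have m3 := li_mul hK.neg h3
    have m4 := li_mul hK.neg h4
    simp only [neg_one_mul, mul_one] at m3 m4
    refine ⟨-z, ?_, ?_, li_trans m3 n1, li_trans n2 m4⟩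
    · rw [Units.val_neg, hz, Units.val_neg]
      ring
    · rw [phi_n z, e, phi_n y, ← mul_assoc, phi_nn, one_mul]

lemma jj_add {j : F} (hj : j ∈ JJ φ H) :
    ∃ z : Fˣ, (z : F) = 1 + j ∧ φ z = 1 ∧ Li φ H z 1 ∧ Li φ H 1 z := by
  obtain ⟨z, hz, e, h1, h2⟩ := jj_add' hK hG hj 1 (Or.inl (map_one φ)) (li_refl 1) (li_refl 1)
  exact ⟨z, by rw [hz, Units.val_one], by rw [e, map_one], h1, h2⟩

lemma one_notMem_jj : (1 : F) ∉ JJ φ H := by
  intro h
  obtain ⟨z, hz, -⟩ := jj_add hK hG (neg_mem h)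
  rw [add_neg_cancel] at hz
  exact z.ne_zero hz

/-- inverses of small elements are not multipliers -/
lemma not_rr {h : Fˣ} (hh : Sh φ H h) : ((h⁻¹ : Fˣ) : F) ∉ RR φ H := by
  intro h1
  apply one_notMem_jj hK hG
  have h2 := h1 _ (mem_jj hh)
  rwa [Units.inv_mul] at h2

variable {p : ℕ} (hp : p.Prime) (hexp : ∀ a : A, a ^ p = 1)

include hp hexp

lemma mem_or (x : F) : x ∈ (integralClosure (RR φ H) F).toSubring ∨
    x⁻¹ ∈ (integralClosure (RR φ H) F).toSubring := by
  by_cases hx : x = 0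
  · left
    rw [hx]
    exact zero_mem _
  have key : ∀ y : Fˣ, Li φ H (y ^ p) 1 → (y : F) ∈ (integralClosure (RR φ H) F).toSubring := by
    intro y hy
    show IsIntegral (RR φ H) (y : F)
    have h1 : ((y ^ p : Fˣ) : F) ∈ RR φ H := mem_rr (by rw [map_pow, hexp]; exact one_mem H) hy
    rw [Units.val_pow_eq_pow_val] at h1
    refine IsIntegral.of_pow hp.pos ?_
    exact isIntegral_algebraMap (x := (⟨(y : F) ^ p, h1⟩ : RR φ H))
  obtain ⟨y, rfl⟩ : ∃ y : Fˣ, (y : F) = x := ⟨Units.mk0 x hx, rfl⟩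
  have hyH : φ (y ^ p) ∈ H := by rw [map_pow, hexp]; exact one_mem H
  rcases li_tot hK hG hyH with h | h
  · exact Or.inl (key y h)
  · right
    rw [← Units.val_inv_eq_inv_val]
    refine key _ ?_
    have h1 := li_mul (c := (y ^ p)⁻¹) (by rw [map_inv]; exact inv_mem hyH) h
    rwa [inv_mul_cancel, mul_one, ← inv_pow] at h1

/-- the valuation ring -/
theorem ring_ex : ∃ O' : ValuationSubring F, (∀ z ∈ RR φ H, z ∈ O') ∧
    (∀ h : Fˣ, φ h ∈ H → ((h : F) ∈ O' ↔ Li φ H h 1)) := by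
  refine ⟨ValuationSubring.ofSubring (integralClosure (RR φ H) F).toSubring
    (mem_or hK hG hp hexp), ?_, ?_⟩
  · intro z hz
    show IsIntegral (RR φ H) z
    exact isIntegral_algebraMap (x := (⟨z, hz⟩ : RR φ H))
  · intro h hh
    constructor
    · intro h1
      have h1' : IsIntegral (RR φ H) (h : F) := h1
      by_contra h2
      have hhi : φ h⁻¹ ∈ H := by rw [map_inv]; exact inv_mem hh
      have h3 : Li φ H 1 h := (li_tot hK hG hh).resolve_left h2
      have h4 : Li φ H h⁻¹ 1 := by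
        have := li_mul hhi h3
        rwa [inv_mul_cancel, mul_one] at this
      have h5 : Sh φ H h⁻¹ := by
        refine ⟨hhi, fun h6 => h2 ?_⟩
        have := li_mul hh h6
        rwa [mul_inv_cancel, mul_one] at this
      have h6 : ((h⁻¹ : Fˣ) : F) ∈ RR φ H := mem_rr hhi h4
      have h7 : (h : F) ∈ RR φ H := int_inv h6 h1'
      have h8 := not_rr hK hG h5
      rw [inv_inv] at h8
      exact h8 h7
    · intro h1
      show IsIntegral (RR φ H) (h : F)
      exact isIntegral_algebraMap (x := (⟨_, mem_rr hh h1⟩ : RR φ H))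

end

end Pool.Agent.V7H42.K2
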