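import Mathlib
import Pool.Agent.V7H42.K2.Chp
import Pool.Agent.V7H42.K2.Ring
import Pool.Agent.V7H42.KR.Fin2
import Pool.Agent.V7H79.KR.MLE

set_option autoImplicit false

/-! Isolated subgroups, `-1` arbitrary in `H`: the contradiction if all classes are basic. -/

namespace Pool.Agent.V7H42.K2

open Pool.Agent.Y920.EP
open Pool.Agent.V7H42.EW (II ii_t mem_ug)
open Pool.Agent.V7H33.KR (ker_mem)
open Pool.Agent.V7H42.KR (Li li_refl li_trans li_mul li_mul' Sh sh_mul JJ mem_jj RR mem_rr int_inv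
  One res_eq res_add t_INTF)

section

variable {F : Type} [Field F] {A : Type} [CommGroup A] {φ : Fˣ →* A} {Nn : A → Subgroup A}
  {H : Subgroup A}

/-- the class `a` is not rigid -/
def Ba (φ : Fˣ →* A) (a : A) : Prop :=
  ∃ v v' : Fˣ, φ v = a ∧ (v : F) + v' = 1 ∧ φ v' ≠ 1 ∧ φ v' ≠ φ (-v)

/-- all classes basic and an isolated subgroup: impossible -/
theorem no_ke {p : ℕ} (hp : p.Prime) (hp2 : p = 2)
    (hp0 : (p : F) ≠ 0) (hsurj : Function.Surjective φ) (hker : φ.ker = pwG F p)
    (hexp : ∀ a : A, a ^ p = 1) (hK : Ke φ Nn H) {r s : Fˣ} (hG : Gd φ H r s) (hH2 : H ≠ ⊤)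
    (hall : ∀ a : A, a ≠ 1 → a ≠ φ (-1) → Ba φ a ∨ Ba φ (φ (-1) * a)) : False := by
  classical
  obtain ⟨b, hbH⟩ : ∃ b : A, b ∉ H := by
    by_contra hc
    push Not at hc
    exact hH2 (eq_top_iff.2 fun b _ => hc b)
  have hr := hG.hr
  obtain ⟨O', hRO, hHO⟩ := ring_ex hK hG hp hexp
  obtain ⟨⟨a1, a2⟩, -, -⟩ := fd' hK hG
  have hinvH : ∀ h : Fˣ, φ h ∈ H → ((h : F)⁻¹ ∈ O' ↔ Li φ H 1 h) := by
    intro h hh
    rw [← Units.val_inv_eq_inv_val, hHO _ (by rw [map_inv]; exact inv_mem hh)]
    constructor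
    · intro h1
      have := li_mul hh h1
      rwa [mul_inv_cancel, mul_one] at this
    · intro h1
      have := li_mul (c := h⁻¹) (by rw [map_inv]; exact inv_mem hh) h1
      rwa [inv_mul_cancel, mul_one] at this
  have hsmall : ∀ h : Fˣ, φ h ∈ H → (h : F)⁻¹ ∉ O' → ∃ z : Fˣ, (z : F) = 1 + h ∧ φ z = 1 := by
    intro h hh h1
    obtain ⟨z, hz, hz1, -⟩ := ff hK hG (h := h)
      ⟨hh, fun h2 => h1 ((hinvH h hh).2 h2)⟩
    exact ⟨z, hz, hz1⟩
  -- no class of `H` has a representative in `1 + m`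
  have hone : ∀ (c : Fˣ) (m : F), (c : F) = 1 + m → φ c ∈ H → m ∈ O' → (m = 0 ∨ m⁻¹ ∉ O') →
      φ c = 1 := by
    intro c m hc hcH hm hm'
    by_contra hca
    by_cases hm0 : m = 0
    · rw [hm0, add_zero] at hc
      apply hca
      rw [Units.ext (hc.trans Units.val_one.symm), map_one]
    have hm'' := hm'.resolve_left hm0
    obtain ⟨v, rfl⟩ : ∃ v : Fˣ, (v : F) = m := ⟨Units.mk0 m hm0, rfl⟩
    have h1 := hK.sum (-c) (-v) (by rw [Units.val_neg, Units.val_neg, hc]; ring)
    rw [neg_neg] at h1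
    have hvH : φ v ∈ H := by
      have h2 := mem_neg hK (hK.le _ hcH hca h1)
      rwa [neg_neg] at h2
    obtain ⟨z, hz, hz1⟩ := hsmall v hvH hm''
    apply hca
    rw [Units.ext (hc.trans hz.symm), hz1]
  -- `p` is a unit
  have hkq : ∀ g g' : Fˣ, (g : Fˣ ⧸ φ.ker) = (g' : Fˣ ⧸ φ.ker) ↔ φ g = φ g' := by
    intro g g'
    rw [QuotientGroup.eq, MonoidHom.mem_ker, map_mul, map_inv, inv_mul_eq_one]
  have hpw : ∀ x : Fˣ, x ∈ pwG F p ↔ φ x = 1 := by
    intro x
    rw [← hker, MonoidHom.mem_ker]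
  have hpO : (p : F)⁻¹ ∈ O' := by
    refine chp_e F p hp hp2 hp0 (H.comap φ) hK.neg ?_ O' ?_ ?_ ?_ r hr ?_ ?_ ?_
    · intro x hx
      rw [Subgroup.mem_comap, (hpw x).1 hx]
      exact one_mem _
    · intro x hx y hy hxy
      rw [hpw, map_div, div_eq_one] at hxy
      obtain ⟨z, hz, hzH⟩ := fa hK hx hy hxy
      exact ⟨z, hzH, hz⟩
    · intro h hh _ h2
      obtain ⟨z, hz, hz1⟩ := hsmall h hh h2
      exact ⟨z, (hpw z).2 hz1, hz⟩
    · intro c hc m hcm hm hm'
      exact (hpw c).2 (hone c m hcm hc hm hm')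
    · rw [hpw]
      exact hG.hr1
    · rw [hpw, phi_n]
      intro h
      apply hG.hre
      have h2 := congrArg (fun c => φ (-1) * c) h
      simp only [mul_one, ← mul_assoc, phi_nn, one_mul] at h2
      exact h2
    · exact mem_ug.2 ⟨(hHO r hr).2 a1, (hinvH r hr).2 a2⟩
  -- the one-units
  have hTR : ∀ y : Fˣ, y ∈ φ.ker → (y : F) ∈ O' → (y : F) ∈ RR φ H := by
    intro y hy h1
    have hyH : φ y ∈ H := by rw [MonoidHom.mem_ker.1 hy]; exact one_mem H
    exact mem_rr hyH ((hHO y hyH).1 h1)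
  have hOne : One φ.ker O' := by
    intro y hy hy'
    have hy0 : y ≠ 0 := by
      rintro rfl
      rw [inv_zero] at hy'
      exact hy' hy
    obtain ⟨u, rfl⟩ : ∃ u : Fˣ, (u : F) = y := ⟨Units.mk0 y hy0, rfl⟩
    have hupH : φ (u ^ p) ∈ H := by rw [map_pow, hexp]; exact one_mem H
    have hsh : Sh φ H (u ^ p) := by
      refine ⟨hupH, fun h2 => hy' ?_⟩
      have h3 := (hinvH _ hupH).2 h2
      rw [Units.val_pow_eq_pow_val] at h3
      have h4 : (u : F)⁻¹ = (u : F) ^ (p - 1) * ((u : F) ^ p)⁻¹ := by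
        have h5 : (u : F) ^ p = (u : F) ^ (p - 1) * u := by
          rw [← pow_succ, Nat.sub_add_cancel hp.one_le]
        have h6 : (u : F) ^ (p - 1) ≠ 0 := pow_ne_zero _ u.ne_zero
        have h7 : (u : F) ≠ 0 := u.ne_zero
        rw [h5]
        generalize (u : F) ^ (p - 1) = B at h6 ⊢
        field_simp
      rw [h4]
      exact mul_mem (pow_mem hy _) h3
    have h1 := Pool.Agent.V7H79.KR.t_MLE F p hp hp0 φ.ker hker.ge O' hpO (RR φ H) hRO hTR (JJ φ H)
      (fun z hz j hj => hz j hj) (by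
        intro j hj
        obtain ⟨z, hz, hz1, hz2, hz3⟩ := jj_add hK hG hj
        have hzH : φ z ∈ H := by rw [hz1]; exact one_mem H
        exact ⟨z, hz1, hz, (hHO z hzH).2 hz2, (hinvH z hzH).2 hz3⟩)
      u hy hy' (by
        have := mem_jj hsh
        rwa [Units.val_pow_eq_pow_val] at this)
    obtain ⟨t, ht, e⟩ := ii_t h1
    exact ⟨t, ht, e⟩
  -- nonrigid elements are units
  have hunit : ∀ (v v' : Fˣ), (v : F) + v' = 1 → φ v' ≠ 1 → φ v' ≠ φ (-v) →
      v ∈ O'.unitGroup := by
    intro v v' hv hv1' hvv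
    rw [mem_ug]
    constructor
    · by_contra h
      have h1 := (O'.mem_or_inv_mem (v : F)).resolve_left h
      obtain ⟨t, ht, e⟩ := hOne (-(v : F)⁻¹) (neg_mem h1) (by
        rw [inv_neg, inv_inv]
        exact fun h2 => h (neg_mem_iff.1 h2))
      apply hvv
      have h2 : v' = -v * t := by
        apply Units.ext
        rw [Units.val_mul, Units.val_neg, e]
        have h3 : (v : F) ≠ 0 := v.ne_zero
        field_simp
        linear_combination hv
      rw [h2, map_mul, MonoidHom.mem_ker.1 ht, mul_one]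
    · by_contra h
      have h1 := (O'.mem_or_inv_mem (v : F)).resolve_right h
      obtain ⟨t, ht, e⟩ := hOne (-(v : F)) (neg_mem h1) (by
        rw [inv_neg]
        exact fun h2 => h (neg_mem_iff.1 h2))
      apply hv1'
      have h2 : v' = t := Units.ext (by rw [e]; linear_combination hv)
      rw [h2]
      exact ht
  have hnegu : ∀ u : Fˣ, u ∈ O'.unitGroup → -u ∈ O'.unitGroup := by
    intro u hu
    rw [mem_ug] at hu ⊢
    rw [Units.val_neg, inv_neg]
    exact ⟨neg_mem hu.1, neg_mem hu.2⟩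
  have hcl' : ∀ g : Fˣ, ∃ u ∈ O'.unitGroup, φ u = φ g := by
    intro g
    by_cases hg : φ g = 1
    · exact ⟨1, one_mem _, by rw [map_one, hg]⟩
    by_cases hge : φ g = φ (-1)
    · exact ⟨-1, hnegu 1 (one_mem _), hge.symm⟩
    rcases hall _ hg hge with ⟨v, v', hv, hvv, h1, h2⟩ | ⟨v, v', hv, hvv, h1, h2⟩
    · exact ⟨v, hunit v v' hvv h1 h2, hv⟩
    · refine ⟨-v, hnegu v (hunit v v' hvv h1 h2), ?_⟩
      rw [phi_n, hv, ← mul_assoc, phi_nn, one_mul]
  have hcl : ∀ c : Fˣ ⧸ φ.ker, ∃ u ∈ O'.unitGroup, ((u : Fˣ) : Fˣ ⧸ φ.ker) = c := by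
    intro c
    obtain ⟨g, rfl⟩ := QuotientGroup.mk_surjective c
    obtain ⟨u, hu, e⟩ := hcl' g
    exact ⟨u, hu, (hkq _ _).2 e⟩
  rcases finite_or_infinite (IsLocalRing.ResidueField O') with hfin | hinf
  · -- finite residue field: cyclic
    obtain ⟨g, hg⟩ := Pool.Agent.V7H33.KR.t_CYC F φ.ker O' hOne hcl hfin
    obtain ⟨γ, rfl⟩ := QuotientGroup.mk_surjective g
    have hg' : ∀ c : A, ∃ k : ℕ, c = φ γ ^ k := by
      intro c
      obtain ⟨x, rfl⟩ := hsurj c
      obtain ⟨k, hk⟩ := hg (x : Fˣ ⧸ φ.ker)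
      refine ⟨k, ?_⟩
      rw [← QuotientGroup.mk_pow, hkq, map_pow] at hk
      exact hk
    obtain ⟨k, hk⟩ := hg' (φ r)
    have hcop : Nat.Coprime k p := by
      rw [Nat.coprime_comm, Nat.Prime.coprime_iff_not_dvd hp]
      rintro ⟨m, rfl⟩
      apply hG.hr1
      rw [hk, pow_mul, hexp, one_pow]
    obtain ⟨m, hm⟩ := Nat.exists_mul_mod_eq_one_of_coprime hcop hp.one_lt
    have h1 : (φ γ ^ k) ^ m = φ γ := by
      rw [← pow_mul]
      conv_lhs => rw [← Nat.div_add_mod (k * m) p, hm.2]
      rw [pow_add, pow_one, pow_mul, hexp, one_pow, one_mul]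
    have h2 : φ γ ∈ H := by
      rw [← h1, ← hk]
      exact pow_mem hr m
    obtain ⟨k', hk'⟩ := hg' b
    rw [hk'] at hbH
    exact hbH (pow_mem h2 k')
  · -- infinite residue field: the classes in `H` are a subfield
    have hW : ∀ w : Fˣ, w ∈ O'.unitGroup → φ w ∉ H → ∀ z : Fˣ, (z : F) = 1 + w → φ z ≠ 1 := by
      intro w hw hwH z hz hz1
      have hw1 : φ w ≠ 1 := fun h => hwH (by rw [h]; exact one_mem H)
      have hwe : φ w ≠ φ (-1) := fun h => hwH (by rw [h]; exact hK.neg)
      obtain ⟨v, v', hvq, hvv, h1, h2⟩ : ∃ v v' : Fˣ, φ (-v / w) ∈ H ∧ (v : F) + v' = 1 ∧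
          φ v' ≠ 1 ∧ φ v' ≠ φ (-v) := by
        rcases hall _ hw1 hwe with ⟨v, v', hv, hvv, h1, h2⟩ | ⟨v, v', hv, hvv, h1, h2⟩
        · refine ⟨v, v', ?_, hvv, h1, h2⟩
          rw [map_div, phi_n, hv, mul_div_cancel_right]
          exact hK.neg
        · refine ⟨v, v', ?_, hvv, h1, h2⟩
          rw [map_div, phi_n, hv, ← mul_assoc, phi_nn, one_mul, div_self']
          exact one_mem H
      have hvu := hunit v v' hvv h1 h2
      have hqO : ((-v / w : Fˣ) : F) ∈ O' := by
        rw [Units.val_div_eq_div_val, Units.val_neg, div_eq_mul_inv]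
        exact mul_mem (neg_mem (mem_ug.1 hvu).1) (mem_ug.1 hw).2
      have hqL : Li φ H (-v / w) 1 := (hHO _ hvq).1 hqO
      have hwM : Ml φ w 1 := ⟨z, by rw [hz, Units.val_one], by rw [hz1, map_one]⟩
      have h3 : Ml φ (-v / w * w) (-v / w * 1) := (ml_mul _ _ _).2 hwM
      rw [mul_one, div_mul_cancel] at h3
      have hvH : φ (-v) ∉ H := by
        intro h
        apply hwH
        rw [map_div] at hvq
        have h4 := div_mem h hvq
        rwa [div_div_cancel] at h4
      obtain ⟨y, hy, hy1⟩ := hqL (-v) hvH h3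
      apply h1
      rw [map_one] at hy1
      rw [← hy1]
      congr 1
      apply Units.ext
      rw [hy, Units.val_one, Units.val_neg]
      linear_combination hvv
    let k := IsLocalRing.ResidueField O'
    let ρ : O'.unitGroup →* kˣ := O'.unitGroupToResidueFieldUnits
    have hρ : Function.Surjective ρ := ValuationSubring.surjective_unitGroupToResidueFieldUnits O'
    have hres : ∀ u v : O'.unitGroup, ((ρ u : kˣ) : k) = ρ v → φ (u : Fˣ) = φ (v : Fˣ) :=
      fun u v h => res_eq hOne h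
    let L : Subfield k :=
      { carrier := {x | x = 0 ∨ ∃ u : O'.unitGroup, φ (u : Fˣ) ∈ H ∧ ((ρ u : kˣ) : k) = x}
        mul_mem' := by
          rintro x y (rfl | ⟨u, hu, rfl⟩) hy
          · left; rw [zero_mul]
          · rcases hy with rfl | ⟨v, hv, rfl⟩
            · left; rw [mul_zero]
            · right
              exact ⟨u * v, by rw [Subgroup.coe_mul, map_mul]; exact mul_mem hu hv, by
                rw [map_mul, Units.val_mul]⟩
        one_mem' := Or.inr ⟨1, by rw [Subgroup.coe_one, map_one]; exact one_mem H, by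
          rw [map_one, Units.val_one]⟩
        zero_mem' := Or.inl rfl
        add_mem' := by
          rintro x y (rfl | ⟨u, hu, rfl⟩) hy
          · rw [zero_add]; exact hy
          · rcases hy with rfl | ⟨v, hv, rfl⟩
            · rw [add_zero]; exact Or.inr ⟨u, hu, rfl⟩
            · by_cases h0 : ((ρ u : kˣ) : k) + ((ρ v : kˣ) : k) = 0
              · exact Or.inl h0
              · right
                obtain ⟨c, hc, hc'⟩ := res_add (O' := O') (u := u) (v := v) h0
                refine ⟨c, ?_, hc'⟩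
                by_cases huv : φ (u : Fˣ) = φ (-(v : Fˣ))
                · by_contra hcH
                  have hw : -(c / u : Fˣ) ∈ O'.unitGroup := by
                    have h1 : (c / u : Fˣ) ∈ O'.unitGroup := div_mem c.2 u.2
                    rw [mem_ug] at h1 ⊢
                    rw [Units.val_neg, inv_neg]
                    exact ⟨neg_mem h1.1, neg_mem h1.2⟩
                  refine hW (-(c / u : Fˣ)) hw ?_ (-(v / u : Fˣ)) ?_ ?_
                  · intro h2
                    apply hcH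
                    have h3 := mul_mem (mem_neg hK h2) hu
                    rwa [neg_neg, ← map_mul, div_mul_cancel] at h3
                  · rw [Units.val_neg, Units.val_neg, Units.val_div_eq_div_val,
                      Units.val_div_eq_div_val, hc]
                    have h4 : (((u : Fˣ) : F)) ≠ 0 := (u : Fˣ).ne_zero
                    field_simp
                    ring
                  · rw [← neg_div, map_div, ← huv, div_self']
                · obtain ⟨z, hz, hzH⟩ := fa hK hu hv huv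
                  rw [Units.ext (hc.trans hz.symm)]
                  exact hzH
        neg_mem' := by
          rintro x (rfl | ⟨u, hu, rfl⟩)
          · left; rw [neg_zero]
          · right
            have h1 : -(u : Fˣ) ∈ O'.unitGroup := by
              have h2 := u.2
              rw [mem_ug] at h2 ⊢
              rw [Units.val_neg, inv_neg]
              exact ⟨neg_mem h2.1, neg_mem h2.2⟩
            refine ⟨⟨-(u : Fˣ), h1⟩, by
              change φ (-(u : Fˣ)) ∈ H
              exact mem_neg hK hu, ?_⟩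
            change IsLocalRing.residue O' (O'.unitGroupMulEquiv ⟨-(u : Fˣ), h1⟩ : O') =
              -IsLocalRing.residue O' (O'.unitGroupMulEquiv u : O')
            rw [← map_neg]
            congr 1
        inv_mem' := by
          rintro x (rfl | ⟨u, hu, rfl⟩)
          · left; rw [inv_zero]
          · right
            exact ⟨u⁻¹, by rw [Subgroup.coe_inv, map_inv]; exact inv_mem hu, by
              rw [map_inv, Units.val_inv_eq_inv_val]⟩ }
    have hpk : (p : k) ≠ 0 := by
      intro h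
      have h1 : (p : O') ∈ IsLocalRing.maximalIdeal O' := by
        rw [← IsLocalRing.residue_eq_zero_iff, map_natCast]
        exact h
      have h2 : IsUnit (p : O') := by
        refine IsUnit.of_mul_eq_one ⟨(p : F)⁻¹, hpO⟩ ?_
        apply Subtype.ext
        change ((p : O') : F) * (p : F)⁻¹ = 1
        have e : ((p : O') : F) = (p : F) := by simp
        rw [e, mul_inv_cancel₀ hp0]
      exact (IsLocalRing.mem_maximalIdeal _).1 h1 h2
    have hL : L = ⊤ := by
      refine t_INTF k p hp hpk hinf L fun x => ?_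
      by_cases hx : x = 0
      · rw [hx, zero_pow hp.ne_zero]
        exact zero_mem _
      · obtain ⟨u, hu⟩ := hρ (Units.mk0 x hx)
        refine Or.inr ⟨u ^ p, ?_, ?_⟩
        · rw [Subgroup.coe_pow, map_pow, hexp]
          exact one_mem H
        · rw [map_pow, hu, Units.val_pow_eq_pow_val, Units.val_mk0]
    obtain ⟨g, rfl⟩ := hsurj b
    obtain ⟨u, hu, e⟩ := hcl' g
    have h1 : ((ρ ⟨u, hu⟩ : kˣ) : k) ∈ L := by rw [hL]; exact Subfield.mem_top _
    rcases h1 with h1 | ⟨v, hv, h1⟩
    · exact (ρ ⟨u, hu⟩).ne_zero h1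
    · have h2 := hres v ⟨u, hu⟩ h1
      apply hbH
      rw [← e]
      change φ ((⟨u, hu⟩ : O'.unitGroup) : Fˣ) ∈ H
      rw [← h2]
      exact hv

end

end Pool.Agent.V7H42.K2
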