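import Mathlib
import Pool.Agent.V7H42.ET.PCD2
import Pool.Agent.Y920.ETC.FieldH
import Pool.Agent.Y67.ET.Basic

set_option autoImplicit false

/-! Birigid elements, `p = 2`, `-1` arbitrary. -/

namespace Pool.Agent.V7H42.K2

open Pool.Agent.H315R3.ETC Pool.Agent.TH188.ET Pool.Agent.Y920.ETC
open Pool.Agent.Y920.EP (RP)
open Pool.Agent.V7H42.ET (SS L2e pcd_of)

section

variable {F : Type} [Field F] {T B : Subgroup Fˣ}

/-- multiplication by elements of a decomposition keeps smallness -/
lemma ss_fwd (hRP : RP T B)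
    (hNB : ∀ u v : Fˣ, u ∈ B → -u ∉ T → (v : F) = 1 + u → v ∈ B) {q s w : Fˣ}
    (hq : q ∈ B) (hs : s ∈ B) (hqs : (q : F) + s = 1) (hns : -q / s ∉ T) (hw : SS T B w) :
    SS T B (w * q) := by
  have h1 : w * q ∉ B := fun h => hw.1 ((B.mul_mem_cancel_right hq).1 h)
  refine ⟨h1, ?_⟩
  rcases hRP.rigid _ h1 with h2 | ⟨t, ht, e⟩
  · exact h2
  · exfalso
    obtain ⟨t0, ht0, e0⟩ := hw.2
    apply h1
    have h3 : (w * q * t) / s ∈ B := by
      refine hNB (q * t0 / s) _ (div_mem (mul_mem hq (hRP.le ht0)) hs) ?_ ?_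
      · intro h
        apply hns
        have h4 := T.mul_mem h (T.inv_mem ht0)
        have e5 : -(q * t0 / s) * t0⁻¹ = -q / s := by
          rw [← neg_div, ← neg_mul, div_mul_eq_mul_div, mul_inv_cancel_right]
        rwa [e5] at h4
      · have hs0 : (s : F) ≠ 0 := s.ne_zero
        rw [Units.val_div_eq_div_val, e, Units.val_div_eq_div_val, Units.val_mul, Units.val_mul, e0]
        field_simp
        linear_combination -hqs
    have h4 := B.mul_mem h3 hs
    rw [div_mul_cancel] at h4
    exact (B.mul_mem_cancel_right (hRP.le ht)).1 h4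

/-- `PCD` if there is a nonrigid element outside `T` and `-T` -/
lemma pcd_b (hRP : RP T B)
    (hNB : ∀ u v : Fˣ, u ∈ B → -u ∉ T → (v : F) = 1 + u → v ∈ B) {r s : Fˣ}
    (hr : r ∈ B) (hs : s ∈ B) (hrs : (r : F) + s = 1) (hr1 : r ∉ T) (hr2 : -r ∉ T) (hs1 : s ∉ T)
    (hrs' : -r / s ∉ T) : PCD T B := by
  have hs0 : (s : F) ≠ 0 := s.ne_zero
  have hr0 : (r : F) ≠ 0 := r.ne_zero
  have hnr : -r ∈ B := by
    have := B.mul_mem hRP.neg hr
    rwa [neg_one_mul] at this
  have hns : -s ∈ B := by
    have := B.mul_mem hRP.neg hs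
    rwa [neg_one_mul] at this
  have hsr' : -s / r ∉ T := by
    intro h
    apply hrs'
    have h2 := T.inv_mem h
    have e3 : r / (-s) = -r / s := by
      apply Units.ext
      simp only [Units.val_div_eq_div_val, Units.val_neg]
      field_simp
    rwa [inv_div, e3] at h2
  -- the multipliers
  have m1 : ∀ w, SS T B w → SS T B (w * r) := fun w hw =>
    ss_fwd hRP hNB hr hs hrs hrs' hw
  have m2 : ∀ w, SS T B w → SS T B (w * s) := fun w hw =>
    ss_fwd hRP hNB hs hr (by rw [add_comm]; exact hrs) hsr' hw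
  have e1 : ((s⁻¹ : Fˣ) : F) + ((-r / s : Fˣ) : F) = 1 := by
    rw [Units.val_inv_eq_inv_val, Units.val_div_eq_div_val, Units.val_neg]
    field_simp
    linear_combination -hrs
  have m3 : ∀ w, SS T B w → SS T B (w * s⁻¹) := fun w hw =>
    ss_fwd hRP hNB (B.inv_mem hs) (B.div_mem hnr hs) e1 (by
      intro h
      apply hr1
      have e2 : -s⁻¹ / (-r / s) = r⁻¹ := by
        apply Units.ext
        simp only [Units.val_div_eq_div_val, Units.val_neg, Units.val_inv_eq_inv_val]
        field_simp
      rw [e2] at h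
      exact T.inv_mem_iff.1 h) hw
  have m4 : ∀ w, SS T B w → SS T B (w * (-r / s)) := fun w hw =>
    ss_fwd hRP hNB (B.div_mem hnr hs) (B.inv_mem hs) (by rw [add_comm]; exact e1) (by
      intro h
      apply hr1
      have e2 : -(-r / s) / s⁻¹ = r := by
        apply Units.ext
        simp only [Units.val_div_eq_div_val, Units.val_neg, Units.val_inv_eq_inv_val]
        field_simp
      rwa [e2] at h) hw
  have m5 : ∀ w, SS T B w → SS T B (w * r⁻¹) := fun w hw =>
    ss_fwd hRP hNB (B.inv_mem hr) (B.div_mem hns hr) (by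
      rw [Units.val_inv_eq_inv_val, Units.val_div_eq_div_val, Units.val_neg]
      field_simp
      linear_combination -hrs) (by
      intro h
      apply hs1
      have e2 : -r⁻¹ / (-s / r) = s⁻¹ := by
        apply Units.ext
        simp only [Units.val_div_eq_div_val, Units.val_neg, Units.val_inv_eq_inv_val]
        field_simp
      rw [e2] at h
      exact T.inv_mem_iff.1 h) hw
  refine pcd_of hRP ?_ ?_
  · intro x y d hx hy hd
    by_cases hsr : s / r ∈ T
    · refine L2e hRP (r := s⁻¹) (s := -r / s) e1 (fun h => hs1 (T.inv_mem_iff.1 h)) hrs' ?_ m3 m4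
        hx hy hd
      intro h
      apply hr2
      have e2 : -r / s / s⁻¹ = -r := by
        apply Units.ext
        simp only [Units.val_div_eq_div_val, Units.val_neg, Units.val_inv_eq_inv_val]
        field_simp
      rwa [e2] at h
    · exact L2e hRP hrs hr1 hs1 hsr m1 m2 hx hy hd
  · intro w hw
    have h1 := m5 _ (m2 _ (m4 w hw))
    have e2 : w * (-r / s) * s * r⁻¹ = -w := by
      apply Units.ext
      simp only [Units.val_mul, Units.val_div_eq_div_val, Units.val_neg, Units.val_inv_eq_inv_val]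
      field_simp
    rwa [e2] at h1

end

end Pool.Agent.V7H42.K2
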