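import Mathlib
import Pool.Agent.V7H42.K2.Rig
import Pool.Agent.V7H42.K2.Fin
import Pool.Agent.V7H51.NR.Nrm

set_option autoImplicit false

/-! Isolated subgroups, `p = 2`, `-1` arbitrary: the valuation ring. -/

namespace Pool.Agent.V7H42.K2

open Pool.Agent.H315R3.ETC Pool.Agent.TH188.ET Pool.Agent.Y920.ETC
open Pool.Agent.Y920.EP (RP pwG nmG NnF exists_quot phi_one exp_p)
open Pool.Agent.V7H42.KR (One)
open Pool.Agent.V7H51.NR (symm_all mem_NnF nmG_two)

/-- `c ^ p - a` is a norm from `F(a^(1/p))` -/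
lemma nm_sub {F : Type} [Field F] {p : ℕ} (hp : p.Prime) (a v : Fˣ) (c : F)
    (hv : (v : F) = c ^ p - a) : v ∈ nmG p a := by
  classical
  have h1 : (algebraMap F (AdjoinRoot (Polynomial.X ^ p - Polynomial.C (a : F))) c -
      AdjoinRoot.root (Polynomial.X ^ p - Polynomial.C (a : F))) ∣
      algebraMap F (AdjoinRoot (Polynomial.X ^ p - Polynomial.C (a : F))) v := by
    have h2 := sub_dvd_pow_sub_pow
      (algebraMap F (AdjoinRoot (Polynomial.X ^ p - Polynomial.C (a : F))) c)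
      (AdjoinRoot.root (Polynomial.X ^ p - Polynomial.C (a : F))) p
    rwa [Pool.Agent.Y349.EP.root_pow, ← map_pow, ← map_sub, ← hv] at h2
  have h3 := isUnit_of_dvd_unit h1 (v.isUnit.map _)
  refine ⟨h3.unit, ?_⟩
  ext
  rw [Units.coe_map, IsUnit.unit_spec]
  change Algebra.norm F _ = _
  rw [Pool.Agent.Y349.EP.norm_sub_root hp.pos, hv]

/-- from a compatible ring to the result -/
lemma finish {F : Type} [Field F] (h2 : (2 : F) ≠ 0) {K : Subgroup Fˣ}
    (hRP : RigidPair (sqG F) K) (hP : PCD (sqG F) K) (hK : K ≠ ⊤) :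
    ∃ O : ValuationSubring F, One (pwG F 2) O ∧ ((2 : ℕ) : F)⁻¹ ∈ O ∧
      O.unitGroup ⊔ pwG F 2 ≠ ⊤ := by
  obtain ⟨O, hO⟩ := Pool.Agent.Y447.ET.t_WB F _ _ hRP hP
  have hT : ∀ x : Fˣ, x ∈ sqG F ↔ ∃ y : Fˣ, x = y * y := by
    intro x
    rw [mem_sqG]
    constructor
    · rintro ⟨y, rfl⟩; exact ⟨y, pow_two y⟩
    · rintro ⟨y, rfl⟩; exact ⟨y, (pow_two y).symm⟩
  obtain ⟨O', -, h2O', hO'⟩ := Pool.Agent.Y67.ET.t_COARSE F h2 _ _ hT hRP.le O hO
  refine ⟨O', hO'.one, by exact_mod_cast h2O', fun htop => hK ?_⟩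
  rw [eq_top_iff, ← htop]
  refine sup_le ?_ hRP.le
  intro u hu
  refine hO'.units u ?_ ?_
  · exact (O'.valuation_le_one_iff _).1 ((ValuationSubring.mem_unitGroup_iff _ _).1 hu).le
  · refine (O'.valuation_le_one_iff _).1 ?_
    rw [Units.val_inv_eq_inv_val, map_inv₀, (ValuationSubring.mem_unitGroup_iff _ _).1 hu,
      inv_one]

theorem iso_ring_two {F : Type} [Field F] (h2 : (2 : F) ≠ 0) (H : Subgroup Fˣ)
    (hTH : pwG F 2 ≤ H) (hx : ∃ b ∈ H, b ∉ pwG F 2 ∧ -b ∉ pwG F 2) (hH2 : H ≠ ⊤)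
    (hiso : ∀ h ∈ H, h ∉ pwG F 2 → nmG 2 h ≤ H) :
    ∃ O : ValuationSubring F, One (pwG F 2) O ∧ ((2 : ℕ) : F)⁻¹ ∈ O ∧
      O.unitGroup ⊔ pwG F 2 ≠ ⊤ := by
  classical
  have h2' : ((2 : ℕ) : F) ≠ 0 := by exact_mod_cast h2
  obtain ⟨b, hbH, hbT, hbT'⟩ := hx
  have hnH : (-1 : Fˣ) ∈ H := by
    have h1 : -b ∈ H := hiso b hbH hbT (nm_sub Nat.prime_two b (-b) 0 (by
      rw [Units.val_neg]; ring))
    have h3 := mul_mem h1 (inv_mem hbH)
    rwa [neg_mul, mul_inv_cancel] at h3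
  obtain ⟨A, _, φ, hφ, hk⟩ := exists_quot F (pwG F 2)
  have hk1 : ∀ a : Fˣ, φ a = 1 ↔ ∃ b : Fˣ, a = b ^ 2 := fun a => phi_one hk
  have hkT : ∀ a : Fˣ, φ a = 1 ↔ a ∈ pwG F 2 := fun a => by rw [← hk, MonoidHom.mem_ker]
  have hsq : ∀ a : A, a * a = 1 := by
    intro a
    have := exp_p hφ hk a
    rwa [pow_two] at this
  have hexp : ∀ a : A, a ^ 2 = 1 := exp_p hφ hk
  have hq := mkS_q h2 hk1
  have hQ : IsQuat (mkS φ) := isQuat h2 (S := mkS φ) φ hφ hk1 rfl rfl hq
  obtain ⟨B, hB⟩ := Pool.Agent.Y67.ET.t_BASIC (mkS φ) hQ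
  have hRig : RigidPair (sqG F) (B.comap φ) :=
    rigidPair (S := mkS φ) (φ := φ) hk1 rfl rfl hq h2 B hB
  have hz : ∀ a b : Fˣ, (mkS φ).q (φ a) (φ b) = (mkS φ).zero ↔ NormFrom a b :=
    fun a b => q_zero (S := mkS φ) (φ := φ) rfl hq h2 a b
  have hnegS : (mkS φ).neg = φ (-1) := rfl
  -- `B` contains norms
  have hNB : ∀ u v : Fˣ, u ∈ B.comap φ → -u ∉ sqG F → (v : F) = 1 + u → v ∈ B.comap φ := by
    intro u v hu hun hv
    by_contra hvB
    have h1 : Bi (mkS φ) (φ v) := by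
      by_contra h
      exact hvB ((hB _).2 h)
    have h3 : NormFrom (-u) v := ⟨1, 1, by rw [hv, Units.val_neg]; ring⟩
    rcases h1.2.2.1 (φ (-u)) ((hz _ _).2 (NormFrom.comm h2 h3)) with h4 | h4
    · exact hun ((hkT _).1 h4)
    · apply hvB
      have h5 : φ (-u) = φ (-v) := h4.trans (phi_n (φ := φ) v).symm
      have h6 : φ u = φ v := by
        rw [phi_n u, phi_n v] at h5
        exact mul_left_cancel h5
      have h7 : φ u ∈ B := hu
      rw [h6] at h7
      exact h7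
  -- decompositions
  have hdec1 : ∀ c : Fˣ, ¬ Hr (mkS φ) (φ c) → ∃ r s : Fˣ, φ r = φ c ∧ (r : F) + s = 1 ∧
      φ s ≠ 1 ∧ φ s ≠ φ (-r) := by
    intro c hc
    unfold Hr at hc
    push Not at hc
    obtain ⟨e, he, he1, he2⟩ := hc
    obtain ⟨d, rfl⟩ := hφ e
    obtain ⟨x, y, e1⟩ := (hz _ _).1 he
    have hy : y ≠ 0 := by
      rintro rfl
      apply he1
      have hx0 : x ≠ 0 := by
        rintro rfl
        apply d.ne_zero
        rw [e1]; ring
      refine (hk1 d).2 ⟨Units.mk0 x hx0, ?_⟩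
      apply Units.ext
      rw [e1, Units.val_pow_eq_pow_val, Units.val_mk0]; ring
    have hx0 : x ≠ 0 := by
      rintro rfl
      apply he2
      have e2 : d = -c * (Units.mk0 y hy) ^ 2 := by
        apply Units.ext
        rw [e1, Units.val_mul, Units.val_neg, Units.val_pow_eq_pow_val, Units.val_mk0]; ring
      rw [e2, map_mul, (hk1 ((Units.mk0 y hy) ^ 2)).2 ⟨_, rfl⟩, mul_one, phi_n]
      rfl
    have hs1 : φ (d / (Units.mk0 x hx0) ^ 2) = φ d := by
      rw [map_div, (hk1 ((Units.mk0 x hx0) ^ 2)).2 ⟨_, rfl⟩, div_one]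
    have hr1 : φ (c * (Units.mk0 y hy / Units.mk0 x hx0) ^ 2) = φ c := by
      rw [map_mul, (hk1 ((Units.mk0 y hy / Units.mk0 x hx0) ^ 2)).2 ⟨_, rfl⟩, mul_one]
    refine ⟨c * (Units.mk0 y hy / Units.mk0 x hx0) ^ 2, d / (Units.mk0 x hx0) ^ 2, hr1, ?_, ?_, ?_⟩
    · rw [Units.val_mul, Units.val_pow_eq_pow_val, Units.val_div_eq_div_val,
        Units.val_div_eq_div_val, Units.val_pow_eq_pow_val, Units.val_mk0, Units.val_mk0, e1]
      field_simp
      ring
    · rw [hs1]; exact he1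
    · rw [hs1, phi_n, hr1]; exact he2
  have hdec : ∀ c : Fˣ, c ∈ B.comap φ → c ∉ pwG F 2 → -c ∉ pwG F 2 → ∃ r s : Fˣ,
      (φ r = φ c ∨ φ r = φ (-c)) ∧ (r : F) + s = 1 ∧ φ s ≠ 1 ∧ φ s ≠ φ (-r) := by
    intro c hc hcT hcT'
    have h1 : ¬ Bi (mkS φ) (φ c) := (hB _).1 hc
    by_cases h3 : Hr (mkS φ) (φ c)
    · by_cases h4 : Hr (mkS φ) (φ (-c))
      · exfalso
        apply h1
        refine ⟨fun h => hcT ((hkT c).1 h), ?_, h3, ?_⟩
        · rw [hnegS]
          intro h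
          apply hcT'
          rw [← hkT, phi_n, h, phi_nn]
        · rw [hnegS]
          rw [phi_n] at h4
          exact h4
      · obtain ⟨r, s, h5, h6⟩ := hdec1 (-c) h4
        exact ⟨r, s, Or.inr h5, h6⟩
    · obtain ⟨r, s, h5, h6⟩ := hdec1 c h3
      exact ⟨r, s, Or.inl h5, h6⟩
  have hne1 : ∀ c r : Fˣ, c ∉ pwG F 2 → -c ∉ pwG F 2 → (φ r = φ c ∨ φ r = φ (-c)) →
      φ r ≠ 1 ∧ φ r ≠ φ (-1) := by
    intro c r hc hc' hr
    have hc2 : φ c ≠ φ (-1) := by
      intro h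
      apply hc'
      rw [← hkT, phi_n, h, phi_nn]
    have hc3 : φ (-c) ≠ φ (-1) := by
      intro h
      apply hc
      rw [← hkT]
      rw [phi_n] at h
      exact mul_eq_left.1 h
    rcases hr with h | h
    · rw [h]; exact ⟨fun h1 => hc ((hkT c).1 h1), hc2⟩
    · rw [h]; exact ⟨fun h1 => hc' ((hkT _).1 h1), hc3⟩
  have hmemr : ∀ (K : Subgroup Fˣ), pwG F 2 ≤ K → (-1 : Fˣ) ∈ K → ∀ c r : Fˣ, c ∈ K →
      (φ r = φ c ∨ φ r = φ (-c)) → r ∈ K := by
    intro K hTK hnK c r hc hr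
    rcases hr with h | h
    · have h1 : r / c ∈ pwG F 2 := by rw [← hkT, map_div, h, div_self']
      have h3 := mul_mem (hTK h1) hc
      rwa [div_mul_cancel] at h3
    · have h1 : r / (-c) ∈ pwG F 2 := by rw [← hkT, map_div, h, div_self']
      have hnc : -c ∈ K := by
        have := mul_mem hnK hc
        rwa [neg_one_mul] at this
      have h3 := mul_mem (hTK h1) hnc
      rwa [div_mul_cancel] at h3
  by_cases hBtop : B.comap φ = ⊤
  · -- all elements are basic
    exfalso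
    have hζ : ∃ ζ : F, IsPrimitiveRoot ζ 2 := by
      refine ⟨-1, IsPrimitiveRoot.iff_orderOf.2 ?_⟩
      refine orderOf_eq_prime_iff (hp := ⟨Nat.prime_two⟩) |>.2 ⟨by norm_num, fun h => ?_⟩
      apply h2
      linear_combination -h
    have hmapH : ∀ x : Fˣ, φ x ∈ H.map φ ↔ x ∈ H := by
      intro x
      constructor
      · rintro ⟨y, hy, e⟩
        have h1 : φ (x / y) = 1 := by rw [map_div, e, div_self']
        have h3 := mul_mem (hTH ((hkT _).1 h1)) hy
        rwa [div_mul_cancel] at h3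
      · exact fun h => ⟨x, h, rfl⟩
    have hK : Ke φ (NnF 2 φ hφ) (H.map φ) := by
      refine ⟨(hmapH _).2 hnH, ?_, ?_, ?_⟩
      · intro a b hab
        obtain ⟨ζ, hζ⟩ := hζ
        obtain ⟨u, rfl⟩ := hφ a
        obtain ⟨v, rfl⟩ := hφ b
        by_cases hv : φ v = 1
        · rw [NnF, if_pos hv]; trivial
        by_cases hu : φ u = 1
        · rw [hu]; exact one_mem _
        rw [mem_NnF hφ hk Nat.prime_two hu] at hab
        rw [mem_NnF hφ hk Nat.prime_two hv]
        exact symm_all Nat.prime_two hζ (fun h => hu ((hkT u).2 h)) (fun h => hv ((hkT v).2 h)) hab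
      · intro u v huv
        by_cases hu : φ (-u) = 1
        · rw [NnF, if_pos hu]; trivial
        rw [mem_NnF hφ hk Nat.prime_two hu]
        exact nm_sub Nat.prime_two (-u) v 1 (by rw [huv, Units.val_neg]; ring)
      · intro h hh h1 c hc
        obtain ⟨x, hx, rfl⟩ := hh
        obtain ⟨y, rfl⟩ := hφ c
        rw [mem_NnF hφ hk Nat.prime_two h1] at hc
        rw [hmapH]
        exact hiso x hx (fun h => h1 ((hkT x).2 h)) hc
    have hall : ∀ a : A, a ≠ 1 → a ≠ φ (-1) → Ba φ a ∨ Ba φ (φ (-1) * a) := by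
      intro a ha ha'
      obtain ⟨c, rfl⟩ := hφ a
      have hc' : -c ∉ pwG F 2 := by
        rw [← hkT, phi_n]
        intro h
        apply ha'
        have h3 := congrArg (fun d => φ (-1) * d) h
        simp only [mul_one, ← mul_assoc, phi_nn, one_mul] at h3
        exact h3
      obtain ⟨r, s, h3, h4, h5, h6⟩ := hdec c (by rw [hBtop]; trivial)
        (fun h => ha ((hkT c).2 h)) hc'
      rcases h3 with h3 | h3
      · exact Or.inl ⟨r, s, h3, h4, h5, h6⟩
      · exact Or.inr ⟨r, s, by rw [h3, phi_n], h4, h5, h6⟩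
    -- the decomposition
    obtain ⟨r, s, h3, h4, h5, h6⟩ := hdec b (by rw [hBtop]; trivial) hbT hbT'
    obtain ⟨h7, h8⟩ := hne1 b r hbT hbT' h3
    have hrH : r ∈ H := hmemr H hTH hnH b r hbH h3
    have hsH : s ∈ H := hiso r hrH (fun h => h7 ((hkT r).2 h)) (nm_sub Nat.prime_two r s 1 (by
      linear_combination h4))
    have hrs' : φ r ≠ φ (-s) := by
      intro h
      apply h6
      rw [phi_n r, h, phi_n s, ← mul_assoc, phi_nn, one_mul]
    have hGd : ∃ r s : Fˣ, Gd φ (H.map φ) r s := by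
      by_cases h9 : φ s = φ (-1)
      · have hinv : ∀ c : A, c⁻¹ = c := fun c => inv_eq_of_mul_eq_one_right (hsq c)
        have e1 : φ r⁻¹ = φ r := by rw [map_inv, hinv]
        have e2 : φ (-s / r) = φ r := by
          rw [map_div, phi_n, h9, phi_nn, one_div, hinv]
        refine ⟨r⁻¹, -s / r, ⟨?_, ?_, ?_, ?_, ?_, ?_, ?_, ?_⟩⟩
        · rw [e1]; exact (hmapH _).2 hrH
        · rw [e2]; exact (hmapH _).2 hrH
        · have hr0 : (r : F) ≠ 0 := r.ne_zero
          rw [Units.val_inv_eq_inv_val, Units.val_div_eq_div_val, Units.val_neg]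
          field_simp
          linear_combination -h4
        · rw [e1]; exact h7
        · rw [e2]; exact h7
        · rw [e1]; exact h8
        · rw [e2]; exact h8
        · rw [e1, phi_n, e2]
          intro h
          apply h5
          rw [h9]
          exact mul_eq_right.1 h.symm
      · exact ⟨r, s, ⟨(hmapH _).2 hrH, (hmapH _).2 hsH, h4, h7, h5, h8, h9, hrs'⟩⟩
    obtain ⟨r', s', hG⟩ := hGd
    refine no_ke Nat.prime_two rfl h2' hφ hk hexp hK hG ?_ hall
    intro htop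
    apply hH2
    rw [eq_top_iff]
    intro x _
    rw [← hmapH, htop]
    trivial
  · by_cases hb : ∃ c ∈ B.comap φ, c ∉ pwG F 2 ∧ -c ∉ pwG F 2
    · -- basic elements outside `T` and `-T`
      obtain ⟨c, hc, hcT, hcT'⟩ := hb
      obtain ⟨r, s, h3, h4, h5, h6⟩ := hdec c hc hcT hcT'
      obtain ⟨h7, h8⟩ := hne1 c r hcT hcT' h3
      have hrB : r ∈ B.comap φ := hmemr _ hRig.le hRig.neg c r hc h3
      have hnr : -r ∈ B.comap φ := by
        have := mul_mem hRig.neg hrB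
        rwa [neg_one_mul] at this
      have hsB : s ∈ B.comap φ := hNB (-r) s hnr (by
        rw [neg_neg]
        exact fun h => h7 ((hkT r).2 h)) (by rw [Units.val_neg]; linear_combination h4)
      refine finish h2 hRig (pcd_b ⟨hRig.le, hRig.neg, hRig.rigid⟩ hNB hrB hsB h4
        (fun h => h7 ((hkT r).2 h)) ?_ (fun h => h5 ((hkT s).2 h)) ?_) hBtop
      · intro h
        apply h8
        have h9 := (hkT _).2 h
        rw [phi_n] at h9
        have h10 := congrArg (fun d => φ (-1) * d) h9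
        simp only [mul_one, ← mul_assoc, phi_nn, one_mul] at h10
        exact h10
      · intro h
        apply h6
        have h9 := (hkT _).2 h
        rw [map_div] at h9
        exact (div_eq_one.1 h9).symm
    · -- only `T` and `-T`
      push Not at hb
      have hBH : B.comap φ ≤ H := by
        intro c hc
        by_cases hcT : c ∈ pwG F 2
        · exact hTH hcT
        · have h3 := mul_mem hnH (hTH (hb c hc hcT))
          rwa [neg_mul_neg, one_mul] at h3
      obtain ⟨z, H', hH', hR', hP'⟩ := Pool.Agent.Y925.ET.t_WA F _ _ hRig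
      refine finish h2 hR' hP' fun htop => ?_
      obtain ⟨c, hc⟩ : ∃ c : Fˣ, c ∉ H := by
        by_contra h
        push Not at h
        exact hH2 (eq_top_iff.2 fun c _ => h c)
      have hcz : c * z ∈ B.comap φ :=
        ((hH' c).1 (by rw [htop]; trivial)).resolve_left fun h => hc (hBH h)
      have hbz : b * z ∈ B.comap φ := by
        refine ((hH' b).1 (by rw [htop]; trivial)).resolve_left fun h => ?_
        exact hbT' (hb b h hbT)
      have h3 := hBH (div_mem hcz hbz)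
      rw [mul_div_mul_right_eq_div] at h3
      have h4 := mul_mem h3 hbH
      rw [div_mul_cancel] at h4
      exact hc h4

end Pool.Agent.V7H42.K2
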