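import Mathlib
import Pool.Agent.V7H42.K2.Basic
import Pool.Agent.V7H72.KR.NLIFT

set_option autoImplicit false

/-! `p = 2`, `-1` arbitrary: the classification of the isolated subgroups. -/

namespace Pool.Agent.V7H42.K2

open Pool.Agent.Y920.EP (RP pwG nmG)
open Pool.Agent.V7H42.KR (One)
open Pool.Agent.V7H42.EW (mem_ug)
open Pool.Agent.V7H33.KR (ker_mem)

/-- nonrigid elements are units -/
lemma nr_unit {F : Type} [Field F] {T : Subgroup Fˣ} {O : ValuationSubring F} (hO : One T O)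
    {y s : Fˣ} (hys : (y : F) + s = 1) (hs : s ∉ T) (hsy : -s / y ∉ T) : y ∈ O.unitGroup := by
  rw [mem_ug]
  constructor
  · by_contra h
    have h1 := (O.mem_or_inv_mem (y : F)).resolve_left h
    obtain ⟨t, ht, e⟩ := hO (-(y : F)⁻¹) (neg_mem h1) (by
      rw [inv_neg, inv_inv]
      exact fun h2 => h (neg_mem_iff.1 h2))
    apply hsy
    have h2 : -s / y = t := by
      apply Units.ext
      rw [Units.val_div_eq_div_val, Units.val_neg, e]
      have h3 : (y : F) ≠ 0 := y.ne_zero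
      field_simp
      linear_combination -hys
    rw [h2]
    exact ht
  · by_contra h
    have h1 := (O.mem_or_inv_mem (y : F)).resolve_right h
    obtain ⟨t, ht, e⟩ := hO (-(y : F)) (neg_mem h1) (by
      rw [inv_neg]
      exact fun h2 => h (neg_mem_iff.1 h2))
    apply hs
    have h2 : s = t := Units.ext (by rw [e]; linear_combination hys)
    rw [h2]
    exact ht

lemma neg_ug {F : Type} [Field F] {O : ValuationSubring F} {u : Fˣ} (hu : u ∈ O.unitGroup) :
    -u ∈ O.unitGroup := by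
  rw [mem_ug] at hu ⊢
  rw [Units.val_neg, inv_neg]
  exact ⟨neg_mem hu.1, neg_mem hu.2⟩

/-- an isolated subgroup does not contain some, but not all nonrigid elements outside `±T` -/
theorem iso_dich_two {F : Type} [Field F] (h2 : (2 : F) ≠ 0) (H : Subgroup Fˣ)
    (hTH : pwG F 2 ≤ H) (hiso : ∀ h ∈ H, h ∉ pwG F 2 → nmG 2 h ≤ H)
    {b : Fˣ} (hbH : b ∈ H) (hbT : b ∉ pwG F 2) (hbT' : -b ∉ pwG F 2) (hb : Nr b)
    {b' : Fˣ} (hbH' : b' ∉ H) (hb' : Nr b') : False := by
  classical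
  obtain ⟨B, hB1, hB2, hB3, hB4⟩ := basic_data (F := F) h2
  have hBtop : B ≠ ⊤ := by
    intro h
    apply hbH'
    rw [hB4 h H hTH ⟨b, hbH, hbT, hbT'⟩ hiso]
    trivial
  obtain ⟨O, hO, hpO, hOB⟩ := hB3 ⟨b, hB2 b hb, hbT, hbT'⟩ hBtop
  let k := IsLocalRing.ResidueField O
  let r : O.unitGroup →* kˣ := O.unitGroupToResidueFieldUnits
  have hr : Function.Surjective r := ValuationSubring.surjective_unitGroupToResidueFieldUnits O
  have hker : ∀ u : O.unitGroup, r u = 1 → (u : Fˣ) ∈ pwG F 2 := fun u hu => ker_mem hO u hu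
  have hpw : ∀ u : O.unitGroup, r u ∈ pwG k 2 ↔ (u : Fˣ) ∈ pwG F 2 := by
    intro u
    constructor
    · rintro ⟨z, hz⟩
      obtain ⟨y, rfl⟩ := hr z
      have hz' : r (y ^ 2) = r u := by rw [map_pow]; exact hz
      have h1 : r (u / y ^ 2) = 1 := by rw [map_div, hz', div_self']
      have h2 := hker _ h1
      have h3 : ((y ^ 2 : O.unitGroup) : Fˣ) ∈ pwG F 2 := ⟨(y : Fˣ), by simp⟩
      have h4 := mul_mem h2 h3
      rwa [← Subgroup.coe_mul, div_mul_cancel] at h4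
    · rintro ⟨y, hy⟩
      have hy' : y ^ 2 = (u : Fˣ) := hy
      have hyO : y ∈ O.unitGroup := by
        have h1 : O.valuation (((u : Fˣ) : F)) = 1 := u.2
        rw [← hy', Units.val_pow_eq_pow_val, map_pow] at h1
        exact (pow_eq_one_iff.1 h1).resolve_right two_ne_zero
      refine ⟨r ⟨y, hyO⟩, ?_⟩
      change (r ⟨y, hyO⟩) ^ 2 = _
      rw [← map_pow]
      congr 1
      exact Subtype.ext hy'
  let M : Subgroup kˣ := (H.subgroupOf O.unitGroup).map r
  have hM : ∀ u : O.unitGroup, r u ∈ M ↔ (u : Fˣ) ∈ H := by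
    intro u
    constructor
    · rintro ⟨v, hv, e⟩
      have h1 : r (u / v) = 1 := by rw [map_div, e, div_self']
      have h2 := hTH (hker _ h1)
      have h3 : (v : Fˣ) ∈ H := hv
      have h4 := mul_mem h2 h3
      rwa [← Subgroup.coe_mul, div_mul_cancel] at h4
    · exact fun h => ⟨u, h, rfl⟩
  have hneg : ∀ (u : Fˣ) (hu : u ∈ O.unitGroup), r ⟨-u, neg_ug hu⟩ = -r ⟨u, hu⟩ := by
    intro u hu
    apply Units.ext
    rw [Units.val_neg]
    change IsLocalRing.residue O (O.unitGroupMulEquiv ⟨-u, neg_ug hu⟩ : O) =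
      -IsLocalRing.residue O (O.unitGroupMulEquiv ⟨u, hu⟩ : O)
    rw [← map_neg]
    congr 1
  have hpk : (2 : k) ≠ 0 := by
    intro h
    have h1 : (2 : O) ∈ IsLocalRing.maximalIdeal O := by
      rw [← IsLocalRing.residue_eq_zero_iff, map_ofNat]
      exact h
    have h3 : IsUnit (2 : O) := by
      refine IsUnit.of_mul_eq_one ⟨((2 : ℕ) : F)⁻¹, hpO⟩ ?_
      apply Subtype.ext
      change ((2 : O) : F) * ((2 : ℕ) : F)⁻¹ = 1
      have e : ((2 : O) : F) = ((2 : ℕ) : F) := by push_cast; rfl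
      rw [e, mul_inv_cancel₀ (by exact_mod_cast h2)]
    exact (IsLocalRing.mem_maximalIdeal _).1 h1 h3
  -- nonrigid elements have unit representatives
  have hrep : ∀ x : Fˣ, Nr x → ∃ y s : Fˣ, y / x ∈ pwG F 2 ∧ (y : F) + s = 1 ∧ s ∉ pwG F 2 ∧
      -s / y ∉ pwG F 2 ∧ y ∈ O.unitGroup := by
    rintro x ⟨y, s, h1, h3, h4, h5⟩
    exact ⟨y, s, h1, h3, h4, h5, nr_unit hO h3 h4 h5⟩
  obtain ⟨Ok, hOk, -, hne⟩ := iso_ring_two (F := k) hpk M (by
    rintro _ ⟨z, rfl⟩
    obtain ⟨y, rfl⟩ := hr z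
    change (r y) ^ 2 ∈ M
    rw [← map_pow, hM]
    exact hTH ⟨(y : Fˣ), by simp⟩) (by
    obtain ⟨y, s, h1, h3, h4, h5, h6⟩ := hrep b hb
    refine ⟨r ⟨y, h6⟩, ?_, ?_, ?_⟩
    · rw [hM]
      have h7 := mul_mem (hTH h1) hbH
      rwa [div_mul_cancel] at h7
    · rw [hpw]
      intro h7
      apply hbT
      have h8 := mul_mem (inv_mem h1) h7
      rwa [inv_div, div_mul_cancel] at h8
    · rw [← hneg, hpw]
      intro h7
      apply hbT'
      have h8 := mul_mem (inv_mem h1) h7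
      change (y / b)⁻¹ * -y ∈ _ at h8
      rwa [inv_div, mul_neg, div_mul_cancel] at h8) (by
    intro htop
    obtain ⟨y, s, h1, h3, h4, h5, h6⟩ := hrep b' hb'
    apply hbH'
    have h7 : r ⟨y, h6⟩ ∈ M := by rw [htop]; trivial
    rw [hM] at h7
    have h8 := mul_mem (inv_mem (hTH h1)) h7
    change (y / b')⁻¹ * y ∈ _ at h8
    rwa [inv_div, div_mul_cancel] at h8) (by
    rintro _ ⟨h, hh, rfl⟩ hhT v hv
    rw [hpw] at hhT
    obtain ⟨w, hw, hw1, hw2⟩ := Pool.Agent.V7H72.KR.t_NLIFT F 2 Nat.prime_two O h h.2 v hv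
    rw [← hw2]
    refine (hM ⟨w, hw⟩).2 ?_
    exact hiso _ hh hhT hw1)
  obtain ⟨z, hz⟩ : ∃ z : kˣ, z ∉ Ok.unitGroup ⊔ pwG k 2 := by
    by_contra hc
    push Not at hc
    exact hne (eq_top_iff.2 fun z _ => hc z)
  have hkey : ∀ (u : Fˣ) (hu : u ∈ O.unitGroup), u ∉ pwG F 2 → Nr u →
      r ⟨u, hu⟩ ∈ Ok.unitGroup ⊔ pwG k 2 := by
    intro u hu huT hnu
    obtain ⟨y, s, h1, h3, h4, h5, h6⟩ := hrep u hnu
    have hyT : y ∉ pwG F 2 := by
      intro h7
      apply huT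
      have h8 := mul_mem (inv_mem h1) h7
      rwa [inv_div, div_mul_cancel] at h8
    have hsO : s ∈ O.unitGroup := by
      refine nr_unit hO (y := s) (s := y) (by rw [add_comm]; exact h3) hyT ?_
      intro h
      apply h5
      have h7 := inv_mem h
      rw [inv_div] at h7
      have h8 : -s / y = s / -y := by rw [neg_div, div_neg]
      rw [h8]
      exact h7
    have h7 : r ⟨y, h6⟩ ∈ Ok.unitGroup := by
      refine nr_unit hOk (s := r ⟨s, hsO⟩) ?_ ?_ ?_
      · change (IsLocalRing.residue O (O.unitGroupMulEquiv ⟨y, h6⟩ : O)) +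
          IsLocalRing.residue O (O.unitGroupMulEquiv ⟨s, hsO⟩ : O) = 1
        rw [← map_add, ← map_one (IsLocalRing.residue O)]
        congr 1
        exact Subtype.ext h3
      · rw [hpw]; exact h4
      · rw [← hneg, ← map_div, hpw]; exact h5
    have h8 : r ⟨y, h6⟩ / r ⟨u, hu⟩ ∈ pwG k 2 := by
      rw [← map_div, hpw]; exact h1
    have h9 := mul_mem (Subgroup.mem_sup_right (S := Ok.unitGroup) (inv_mem h8))
      (Subgroup.mem_sup_left (T := pwG k 2) h7)
    rwa [inv_div, div_mul_cancel] at h9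
  have hn1 : ∀ x : kˣ, -x ∈ Ok.unitGroup ⊔ pwG k 2 → x ∈ Ok.unitGroup ⊔ pwG k 2 := by
    intro x hx
    have h1 := mul_mem (Subgroup.mem_sup_left (T := pwG k 2) (neg_ug (one_mem Ok.unitGroup))) hx
    rwa [neg_mul_neg, one_mul] at h1
  obtain ⟨⟨u, hu⟩, rfl⟩ := hr z
  have huT : u ∉ pwG F 2 := by
    intro h
    exact hz (Subgroup.mem_sup_right ((hpw ⟨u, hu⟩).2 h))
  have huT' : -u ∉ pwG F 2 := by
    intro h
    apply hz
    apply hn1
    rw [← hneg]
    exact Subgroup.mem_sup_right ((hpw ⟨-u, neg_ug hu⟩).2 h)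
  rcases hB1 u (hOB hu) huT huT' with h | h
  · exact hz (hkey u hu huT h)
  · apply hz
    apply hn1
    rw [← hneg]
    exact hkey (-u) (neg_ug hu) huT' h

end Pool.Agent.V7H42.K2
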