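import Mathlib
import Pool.Agent.V7H42.K2.Cls

set_option autoImplicit false

/-! `p = 2`, `-1` arbitrary: the classification of the isolated subgroups, easy direction. -/

namespace Pool.Agent.V7H42.K2

open Pool.Agent.Y920.EP (RP pwG nmG)
open Pool.Agent.V7H51.NR (nmG_two pwG_le_nmG)

theorem iso_back_two {F : Type} [Field F] (H : Subgroup Fˣ) (hTH : pwG F 2 ≤ H)
    (hnH : (-1 : Fˣ) ∈ H)
    (hor : (∀ x : Fˣ, x ∉ pwG F 2 → Nr x → x ∈ H) ∨
      ((∀ x ∈ H, x ∉ pwG F 2 → Nr x → -x ∈ pwG F 2) ∧ nmG 2 (-1 : Fˣ) ≤ H)) :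
    ∀ h ∈ H, h ∉ pwG F 2 → nmG 2 h ≤ H := by
  intro h hh hhT c hc
  have hsq : ∀ z : Fˣ, z ^ 2 ∈ pwG F 2 := fun z => ⟨z, rfl⟩
  have hneg : ∀ x ∈ H, -x ∈ H := by
    intro x hx
    have := mul_mem hnH hx
    rwa [neg_one_mul] at this
  obtain ⟨x, y, e⟩ := nmG_two hc
  by_cases hy : y = 0
  · apply hTH
    have hx : x ≠ 0 := by
      rintro rfl
      apply c.ne_zero
      rw [e, hy]; ring
    have e2 : c = (Units.mk0 x hx) ^ 2 := by
      apply Units.ext
      rw [e, hy, Units.val_pow_eq_pow_val, Units.val_mk0]; ring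
    rw [e2]
    exact hsq _
  by_cases hx : x = 0
  · have e2 : c = -(h * (Units.mk0 y hy) ^ 2) := by
      apply Units.ext
      rw [e, hx, Units.val_neg, Units.val_mul, Units.val_pow_eq_pow_val, Units.val_mk0]
      ring
    rw [e2]
    exact hneg _ (mul_mem hh (hTH (hsq _)))
  obtain ⟨y0, hy0⟩ : ∃ y0 : Fˣ, y0 = h * (Units.mk0 y hy / Units.mk0 x hx) ^ 2 := ⟨_, rfl⟩
  obtain ⟨s0, hs0⟩ : ∃ s0 : Fˣ, s0 = c / (Units.mk0 x hx) ^ 2 := ⟨_, rfl⟩
  have hsum : (y0 : F) + s0 = 1 := by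
    rw [hy0, hs0, Units.val_mul, Units.val_pow_eq_pow_val, Units.val_div_eq_div_val,
      Units.val_div_eq_div_val, Units.val_pow_eq_pow_val, Units.val_mk0, Units.val_mk0, e]
    field_simp
    ring
  have hcs : c = s0 * (Units.mk0 x hx) ^ 2 := by rw [hs0, div_mul_cancel]
  have hyh : y0 / h ∈ pwG F 2 := by
    rw [hy0, mul_div_cancel_left]
    exact hsq _
  have hyH : y0 ∈ H := by
    have h1 := mul_mem (hTH hyh) hh
    rwa [div_mul_cancel] at h1
  have hyT : y0 ∉ pwG F 2 := by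
    intro h1
    apply hhT
    have h3 := mul_mem (inv_mem hyh) h1
    rwa [inv_div, div_mul_cancel] at h3
  suffices hs : s0 ∈ H by
    rw [hcs]
    exact mul_mem hs (hTH (hsq _))
  by_cases hs1 : s0 ∈ pwG F 2
  · exact hTH hs1
  by_cases hs2 : -s0 / y0 ∈ pwG F 2
  · have h1 := mul_mem (hTH hs2) hyH
    rw [div_mul_cancel] at h1
    have h3 := hneg _ h1
    rwa [neg_neg] at h3
  rcases hor with hor | ⟨hor1, hor2⟩
  · refine hor s0 hs1 ⟨s0, y0, ?_, by rw [add_comm]; exact hsum, hyT, ?_⟩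
    · rw [div_self']; exact one_mem _
    · intro h1
      apply hs2
      have h3 := inv_mem h1
      rw [inv_div] at h3
      have h4 : -s0 / y0 = s0 / -y0 := by rw [neg_div, div_neg]
      rw [h4]
      exact h3
  · have h1 : -h ∈ pwG F 2 := hor1 h hh hhT ⟨y0, s0, hyh, hsum, hs1, hs2⟩
    obtain ⟨z, hz⟩ := h1
    have hz' : z ^ 2 = -h := hz
    have hzF : (z : F) ^ 2 = -(h : F) := by
      have := congrArg (fun u : Fˣ => (u : F)) hz'
      simpa using this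
    -- `c = x ^ 2 + (z y) ^ 2`
    have hzy : (z : F) * y ≠ 0 := mul_ne_zero z.ne_zero hy
    have hv0 : (x / (z * y)) ^ 2 - ((-1 : Fˣ) : F) ≠ 0 := by
      intro h3
      apply c.ne_zero
      rw [Units.val_neg, Units.val_one] at h3
      rw [e]
      have h4 : x ^ 2 = ((z : F) * y) ^ 2 * (x / (z * y)) ^ 2 := by
        rw [div_pow, mul_div_cancel₀ _ (pow_ne_zero _ hzy)]
      rw [h4, mul_pow, hzF]
      linear_combination (-(h : F) * y ^ 2) * h3
    have h5 : Units.mk0 _ hv0 ∈ nmG 2 (-1 : Fˣ) :=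
      nm_sub Nat.prime_two (-1) (Units.mk0 _ hv0) (x / (z * y)) (by rw [Units.val_mk0])
    have h6 : c = Units.mk0 _ hv0 * (Units.mk0 _ hzy) ^ 2 := by
      apply Units.ext
      rw [Units.val_mul, Units.val_pow_eq_pow_val, Units.val_mk0, Units.val_mk0, Units.val_neg,
        Units.val_one, e]
      have h4 : x ^ 2 = ((z : F) * y) ^ 2 * (x / (z * y)) ^ 2 := by
        rw [div_pow, mul_div_cancel₀ _ (pow_ne_zero _ hzy)]
      rw [sub_mul, mul_comm ((x / (z * y)) ^ 2), ← h4, mul_pow, hzF]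
      ring
    have h7 := mul_mem (hor2 h5) (hTH (hsq (Units.mk0 _ hzy)))
    rw [← h6] at h7
    rw [hs0]
    exact div_mem h7 (hTH (hsq _))

end Pool.Agent.V7H42.K2
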