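import Mathlib
import Pool.Agent.V7H42.K2.Main

set_option autoImplicit false

/-! Isolated subgroups, `p = 2`, `-1` arbitrary: the converse. -/

namespace Pool.Agent.V7H42.K2

open Pool.Agent.Y920.EP (RP pwG nmG Pw)
open Pool.Agent.V7H42.KR (One)
open Pool.Agent.V7H51.NR (symm_all two_ram mem_unitGroup_of)

theorem iso_conv_two {F : Type} [Field F] (h2 : (2 : F) ≠ 0) (O : ValuationSubring F)
    (hO : One (pwG F 2) O) (hpO : ((2 : ℕ) : F)⁻¹ ∈ O) (hne : O.unitGroup ⊔ pwG F 2 ≠ ⊤)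
    (hidx : (pwG F 2 ⊔ Subgroup.zpowers (-1 : Fˣ)).index ≠ 2) :
    ∃ H : Subgroup Fˣ, pwG F 2 ≤ H ∧ H ≠ ⊤ ∧ (∃ h ∈ H, h ∉ pwG F 2 ∧ -h ∉ pwG F 2) ∧
      ∀ h ∈ H, h ∉ pwG F 2 → nmG 2 h ≤ H := by
  have h2' : ((2 : ℕ) : F) ≠ 0 := by exact_mod_cast h2
  have hζ : ∃ ζ : F, IsPrimitiveRoot ζ 2 := by
    refine ⟨-1, IsPrimitiveRoot.iff_orderOf.2 ?_⟩
    refine orderOf_eq_prime_iff (hp := ⟨Nat.prime_two⟩) |>.2 ⟨by norm_num, fun h => ?_⟩
    apply h2
    linear_combination -h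
  have hPw : Pw 2 O := by
    refine ⟨hpO, h2', fun x hx hx' => ?_⟩
    obtain ⟨t, ⟨y, rfl⟩, e⟩ := hO x hx hx'
    exact ⟨y, by rw [← e]; simp⟩
  have hsqT : ∀ c : Fˣ, c ^ 2 ∈ pwG F 2 := fun c => ⟨c, rfl⟩
  have hram : ∀ a : Fˣ, a ∉ O.unitGroup ⊔ pwG F 2 → ∀ b ∈ nmG 2 a, ∃ c : Fˣ,
      b = c ^ 2 ∨ b = -a * c ^ 2 := by
    intro a ha b hb
    refine two_ram hPw ?_ hb
    rintro f hf ⟨h1, h3⟩
    apply ha
    have h4 : a * Units.mk0 f hf ^ 2 ∈ O.unitGroup := by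
      refine mem_unitGroup_of ?_ ?_
      · rw [Units.val_mul, Units.val_pow_eq_pow_val, Units.val_mk0]; exact h1
      · rw [Units.val_inv_eq_inv_val, Units.val_mul, Units.val_pow_eq_pow_val,
          Units.val_mk0]; exact h3
    have h5 := mul_mem (Subgroup.mem_sup_left (T := pwG F 2) h4)
      (inv_mem (Subgroup.mem_sup_right (S := O.unitGroup) (hsqT (Units.mk0 f hf))))
    rwa [mul_inv_cancel_right] at h5
  have hnU : (-1 : Fˣ) ∈ O.unitGroup ⊔ pwG F 2 := by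
    refine Subgroup.mem_sup_left (mem_unitGroup_of ?_ ?_)
    · rw [Units.val_neg, Units.val_one]; exact neg_mem (one_mem _)
    · rw [inv_neg, inv_one, Units.val_neg, Units.val_one]; exact neg_mem (one_mem _)
  have hTU : pwG F 2 ≤ O.unitGroup ⊔ pwG F 2 := le_sup_right
  have hneg : ∀ (K : Subgroup Fˣ), (-1 : Fˣ) ∈ K → ∀ x ∈ K, -x ∈ K := by
    intro K hK x hx
    have := mul_mem hK hx
    rwa [neg_one_mul] at this
  have hU : ∀ h ∈ O.unitGroup ⊔ pwG F 2, h ∉ pwG F 2 → nmG 2 h ≤ O.unitGroup ⊔ pwG F 2 := by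
    intro h hh hhT c hc
    by_contra hcU
    have hcT : c ∉ pwG F 2 := fun h => hcU (hTU h)
    obtain ⟨ζ, hζ'⟩ := hζ
    obtain ⟨e, h3 | h3⟩ := hram c hcU h (symm_all Nat.prime_two hζ' hhT hcT hc)
    · exact hhT (by rw [h3]; exact hsqT e)
    · apply hcU
      have h4 : c = -(h * (e ^ 2)⁻¹) := by
        rw [h3, mul_inv_cancel_right, neg_neg]
      rw [h4]
      exact hneg _ hnU _ (mul_mem hh (inv_mem (hTU (hsqT e))))
  by_cases hex : ∃ h ∈ O.unitGroup ⊔ pwG F 2, h ∉ pwG F 2 ∧ -h ∉ pwG F 2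
  · exact ⟨_, hTU, hne, hex, hU⟩
  push Not at hex
  obtain ⟨b, hb⟩ : ∃ b : Fˣ, b ∉ O.unitGroup ⊔ pwG F 2 := by
    by_contra hc
    push Not at hc
    exact hne (eq_top_iff.2 fun b _ => hc b)
  have hnH : (-1 : Fˣ) ∈ Subgroup.zpowers b ⊔ (O.unitGroup ⊔ pwG F 2) :=
    Subgroup.mem_sup_right hnU
  have hUH : O.unitGroup ⊔ pwG F 2 ≤ Subgroup.zpowers b ⊔ (O.unitGroup ⊔ pwG F 2) := le_sup_right
  refine ⟨Subgroup.zpowers b ⊔ (O.unitGroup ⊔ pwG F 2), hTU.trans hUH, ?_,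
    ⟨b, Subgroup.mem_sup_left (Subgroup.mem_zpowers b), fun h => hb (hTU h), fun h => ?_⟩, ?_⟩
  · intro htop
    apply hidx
    have hUV : O.unitGroup ⊔ pwG F 2 = pwG F 2 ⊔ Subgroup.zpowers (-1 : Fˣ) := by
      apply le_antisymm
      · intro u hu
        by_cases huT : u ∈ pwG F 2
        · exact Subgroup.mem_sup_left huT
        · have h3 := mul_mem (Subgroup.mem_sup_right (S := pwG F 2)
            (Subgroup.mem_zpowers (-1 : Fˣ))) (Subgroup.mem_sup_left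
            (T := Subgroup.zpowers (-1 : Fˣ)) (hex u hu huT))
          rwa [neg_mul_neg, one_mul] at h3
      · refine sup_le hTU ?_
        rw [Subgroup.zpowers_le]
        exact hnU
    rw [← hUV, Subgroup.index_eq_two_iff]
    refine ⟨b, fun x => ?_⟩
    have hx : x ∈ Subgroup.zpowers b ⊔ (O.unitGroup ⊔ pwG F 2) := by rw [htop]; trivial
    obtain ⟨z, hz, y, hy, hxy⟩ := Subgroup.mem_sup.1 hx
    obtain ⟨n, rfl⟩ := Subgroup.mem_zpowers_iff.1 hz
    have hbb : b * b ∈ O.unitGroup ⊔ pwG F 2 := by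
      rw [← pow_two]; exact hTU (hsqT b)
    rcases Int.even_or_odd' n with ⟨m, rfl | rfl⟩
    · have h3 : x ∈ O.unitGroup ⊔ pwG F 2 := by
        rw [← hxy]
        refine mul_mem ?_ hy
        have : b ^ (2 * m) = (b ^ m) ^ 2 := by rw [← zpow_natCast, ← zpow_mul, mul_comm]; rfl
        rw [this]
        exact hTU (hsqT _)
      refine Or.inr ⟨h3, fun h4 => hb ?_⟩
      have h5 := mul_mem (inv_mem h3) h4
      rwa [inv_mul_cancel_left] at h5
    · have h3 : x * b ∈ O.unitGroup ⊔ pwG F 2 := by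
        rw [← hxy]
        have : b ^ (2 * m + 1) * y * b = (b ^ m) ^ 2 * (b * b) * y := by
          have e1 : b ^ (2 * m + 1) = (b ^ m) ^ 2 * b := by
            rw [zpow_add_one, ← zpow_natCast, ← zpow_mul, mul_comm 2 m]; rfl
          rw [e1]
          simp only [mul_assoc, mul_comm, mul_left_comm]
        rw [this]
        exact mul_mem (mul_mem (hTU (hsqT _)) hbb) hy
      refine Or.inl ⟨h3, fun h4 => hb ?_⟩
      have h5 := mul_mem (inv_mem h4) h3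
      rwa [inv_mul_cancel_left] at h5
  · apply hb
    have h3 := hneg _ hnU _ (hTU h)
    rwa [neg_neg] at h3
  · intro h hh hhT c hc
    by_cases hhU : h ∈ O.unitGroup ⊔ pwG F 2
    · exact hUH (hU h hhU hhT hc)
    · obtain ⟨e, h3 | h3⟩ := hram h hhU c hc
      · rw [h3]
        exact hUH (hTU (hsqT e))
      · rw [h3]
        exact mul_mem (hneg _ hnH _ hh) (hUH (hTU (hsqT e)))

end Pool.Agent.V7H42.K2
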